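import Pool.Agent.H506R3.Mag.Boch2

open MeasureTheory Set Filter Topology
open scoped FourierTransform RealInnerProductSpace

namespace Pool.Agent.Q289.TS

open Pool.Agent.H506R3.Mag

theorem half_exp_cos {u : ℝ} (hu : 0 < u) (b : ℝ) :
    ∫ x in Ioi (0 : ℝ), Real.exp (-u * x) * Real.cos (b * x) = u / (u ^ 2 + b ^ 2) := by
  have h1 : ∫ x in Ioi (0 : ℝ), Complex.exp (((-u : ℝ) + b * Complex.I) * (x : ℂ)) =
      -Complex.exp (((-u : ℝ) + b * Complex.I) * ((0 : ℝ) : ℂ)) / ((-u : ℝ) + b * Complex.I) :=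
    integral_exp_mul_complex_Ioi (by simpa using hu) 0
  have h2 : ∀ x : ℝ, (Complex.exp (((-u : ℝ) + b * Complex.I) * (x : ℂ))).re =
      Real.exp (-u * x) * Real.cos (b * x) := by
    intro x
    rw [Complex.exp_re]
    simp
  have h3 : ∫ x in Ioi (0 : ℝ), (Complex.exp (((-u : ℝ) + b * Complex.I) * (x : ℂ))).re =
      (∫ x in Ioi (0 : ℝ), Complex.exp (((-u : ℝ) + b * Complex.I) * (x : ℂ))).re := by
    have hint : Integrable (fun x : ℝ => Complex.exp (((-u : ℝ) + b * Complex.I) * (x : ℂ)))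
        (volume.restrict (Ioi 0)) := integrableOn_exp_mul_complex_Ioi (by simpa using hu) 0
    exact integral_re hint
  simp_rw [h2] at h3
  rw [h3, h1]
  simp only [Complex.ofReal_zero, mul_zero, Complex.exp_zero]
  have h4 : (-(1 : ℂ)) / ((-u : ℝ) + b * Complex.I) = 1 / (u - b * Complex.I) := by
    rw [neg_div, ← div_neg]
    congr 1
    push_cast
    ring
  rw [h4, one_div, Complex.inv_re]
  simp [Complex.normSq_apply]
  ring

theorem exp_abs_integrable {u : ℝ} (hu : 0 < u) : Integrable (fun x : ℝ => Real.exp (-u * |x|)) := by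
  have hpos : IntegrableOn (fun y : ℝ => Real.exp (-u * |y|)) (Ioi 0) := by
    refine (exp_neg_integrableOn_Ioi 0 hu).congr_fun ?_ measurableSet_Ioi
    intro y hy
    simp only
    rw [abs_of_pos hy]
  have hneg : IntegrableOn (fun y : ℝ => Real.exp (-u * |y|)) (Iic 0) := by
    rw [← Measure.map_neg_eq_self (volume : Measure ℝ)]
    let m : MeasurableEmbedding fun x : ℝ => -x := (Homeomorph.neg ℝ).measurableEmbedding
    rw [m.integrableOn_map_iff]
    simp_rw [Function.comp_def, abs_neg, neg_preimage, neg_Iic, neg_zero]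
    exact Iff.mpr integrableOn_Ici_iff_integrableOn_Ioi hpos
  rw [← integrableOn_univ, ← Iic_union_Ioi]
  exact hneg.union hpos

theorem ct_exp {u : ℝ} (hu : 0 < u) (ξ : ℝ) :
    ct (fun x : ℝ => Real.exp (-u * |x|)) ξ = 2 * u / (u ^ 2 + (2 * Real.pi * ξ) ^ 2) := by
  unfold ct
  have h1 : ∀ x : ℝ, Real.exp (-u * |x|) * Real.cos (2 * Real.pi * inner ℝ x ξ) =
      (fun y : ℝ => Real.exp (-u * y) * Real.cos ((2 * Real.pi * ξ) * y)) |x| := by
    intro x
    simp only
    congr 1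
    rcases abs_choice x with h | h
    · rw [h]; congr 1; simp; ring
    · rw [h, mul_neg, Real.cos_neg]; congr 1; simp; ring
  simp_rw [h1]
  rw [integral_comp_abs (f := fun y : ℝ => Real.exp (-u * y) * Real.cos ((2 * Real.pi * ξ) * y)),
    half_exp_cos hu]
  ring

theorem cauchy_integrable {u : ℝ} (hu : 0 < u) :
    Integrable (fun η : ℝ => u / (Real.pi * (u ^ 2 + η ^ 2))) := by
  have h := (integrable_inv_one_add_sq.comp_div hu.ne').const_mul (1 / (Real.pi * u))
  refine h.congr (Eventually.of_forall fun η => ?_)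
  simp only
  have hpi := Real.pi_pos
  have h1 : u ^ 2 + η ^ 2 ≠ 0 := by positivity
  have h2 : 1 + (η / u) ^ 2 = (u ^ 2 + η ^ 2) / u ^ 2 := by field_simp
  rw [h2]
  field_simp

theorem cauchy_cos {u : ℝ} (hu : 0 < u) (x : ℝ) :
    ∫ η : ℝ, Real.cos (x * η) * (u / (Real.pi * (u ^ 2 + η ^ 2))) = Real.exp (-u * |x|) := by
  set e : ℝ → ℝ := fun x => Real.exp (-u * |x|) with he
  have hec : Continuous e := by rw [he]; fun_prop
  have hei : Integrable e := exp_abs_integrable hu
  have hee : ∀ x, e (-x) = e x := by intro x; simp [he]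
  have hpi := Real.pi_pos
  have hF : 𝓕 (fun x => (e x : ℂ)) = fun ξ => (ct e ξ : ℂ) :=
    funext (fourier_eq_ct hec hei hee)
  have hct : ∀ ξ, ct e ξ = 2 * u / (u ^ 2 + (2 * Real.pi * ξ) ^ 2) := ct_exp hu
  have hci : Integrable (ct e) := by
    have h1 := (cauchy_integrable hu).comp_mul_left' (R := 2 * Real.pi) (by positivity)
    refine (h1.const_mul (2 * Real.pi)).congr (Eventually.of_forall fun ξ => ?_)
    simp only
    rw [hct]
    field_simp
  have hinv : 𝓕⁻ (fun ξ => (ct e ξ : ℂ)) = fun x => (e x : ℂ) := by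
    rw [← hF]
    refine Continuous.fourierInv_fourier_eq (by fun_prop) hei.ofReal ?_
    rw [hF]
    exact hci.ofReal
  have h1 := congrFun hinv x
  rw [Real.fourierInv_eq'] at h1
  have h2 := congrArg Complex.re h1
  rw [Complex.ofReal_re] at h2
  have h3 : ∀ v : ℝ, (Complex.exp (((2 * Real.pi * inner ℝ v x : ℝ) : ℂ) * Complex.I) •
      (ct e v : ℂ)).re = Real.cos (x * (2 * Real.pi * v)) *
        (2 * Real.pi * (u / (Real.pi * (u ^ 2 + (2 * Real.pi * v) ^ 2)))) := by
    intro v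
    rw [smul_eq_mul, Complex.re_mul_ofReal, Complex.exp_ofReal_mul_I_re, hct]
    have e1 : (2 * Real.pi * inner ℝ v x : ℝ) = x * (2 * Real.pi * v) := by
      simp; ring
    rw [e1]
    congr 1
    field_simp
  have h4 : (∫ v : ℝ, Complex.exp (((2 * Real.pi * inner ℝ v x : ℝ) : ℂ) * Complex.I) •
      (ct e v : ℂ)).re = ∫ v : ℝ, (Complex.exp (((2 * Real.pi * inner ℝ v x : ℝ) : ℂ) *
        Complex.I) • (ct e v : ℂ)).re := by
    symm
    have hIc : Integrable (fun v : ℝ => Complex.exp (((2 * Real.pi * inner ℝ v x : ℝ) : ℂ) *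
        Complex.I) • (ct e v : ℂ)) := by
      refine (hci.ofReal (𝕜 := ℂ)).bdd_mul (c := 1) (by fun_prop) (Eventually.of_forall fun v => ?_)
      rw [Complex.norm_exp_ofReal_mul_I]
    exact integral_re hIc
  rw [h4] at h2
  simp_rw [h3] at h2
  have h2' : Real.exp (-u * |x|) = e x := rfl
  rw [h2', ← h2]
  have h5 := Measure.integral_comp_mul_left (fun η : ℝ => Real.cos (x * η) *
    (u / (Real.pi * (u ^ 2 + η ^ 2)))) (2 * Real.pi)
  have h6 : ∀ v : ℝ, Real.cos (x * (2 * Real.pi * v)) *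
        (2 * Real.pi * (u / (Real.pi * (u ^ 2 + (2 * Real.pi * v) ^ 2)))) =
      2 * Real.pi * (Real.cos (x * (2 * Real.pi * v)) *
        (u / (Real.pi * (u ^ 2 + (2 * Real.pi * v) ^ 2)))) := by intro v; ring
  simp_rw [h6]
  rw [integral_const_mul, h5, abs_of_pos (by positivity), smul_eq_mul, ← mul_assoc,
    mul_inv_cancel₀ (by positivity), one_mul]

theorem cauchy_cos_half {u : ℝ} (hu : 0 < u) (x : ℝ) :
    ∫ η in Ioi (0 : ℝ), Real.cos (x * η) / (u ^ 2 + η ^ 2) =
      Real.pi / (2 * u) * Real.exp (-u * |x|) := by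
  have hpi := Real.pi_pos
  have h1 := cauchy_cos hu x
  have h2 : ∀ η : ℝ, Real.cos (x * η) * (u / (Real.pi * (u ^ 2 + η ^ 2))) =
      (fun η : ℝ => Real.cos (x * η) * (u / (Real.pi * (u ^ 2 + η ^ 2)))) |η| := by
    intro η
    simp only
    rcases abs_choice η with h | h
    · rw [h]
    · rw [h, mul_neg, Real.cos_neg, neg_sq]
  rw [integral_congr_ae (Eventually.of_forall h2),
    integral_comp_abs (f := fun η : ℝ => Real.cos (x * η) * (u / (Real.pi * (u ^ 2 + η ^ 2))))] at h1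
  have h3 : ∀ η : ℝ, Real.cos (x * η) / (u ^ 2 + η ^ 2) =
      Real.pi / u * (Real.cos (x * η) * (u / (Real.pi * (u ^ 2 + η ^ 2)))) := by
    intro η
    have : u ^ 2 + η ^ 2 ≠ 0 := by positivity
    field_simp
  simp_rw [h3]
  rw [integral_const_mul]
  have h4 : ∫ η in Ioi (0 : ℝ), Real.cos (x * η) * (u / (Real.pi * (u ^ 2 + η ^ 2))) =
      Real.exp (-u * |x|) / 2 := by linarith
  rw [h4]
  field_simp

end Pool.Agent.Q289.TS
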