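import Pool.Agent.Q289.TS.Kernel
import Pool.Agent.H581R3.GPR.Rot

open MeasureTheory Set Filter Topology

namespace Pool.Agent.Q289.TS

open ProbabilityTheory

theorem gamma_lap {a c : ℝ} (ha : 0 < a) (hc : 0 < c) {z : ℂ} (hz : 0 ≤ z.re) :
    ∫ r, Complex.exp (-(z * r)) ∂(gammaMeasure a c) = (c : ℂ) ^ (a : ℂ) * (1 / (c + z)) ^ (a : ℂ) := by
  have hG : 0 < Real.Gamma a := Real.Gamma_pos_of_pos ha
  unfold gammaMeasure
  have hmeas : Measurable (fun x => (gammaPDFReal a c x).toNNReal) :=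
    (measurable_gammaPDFReal a c).real_toNNReal
  have h0 : (gammaPDF a c) = fun x => (((gammaPDFReal a c x).toNNReal : NNReal) : ENNReal) := rfl
  rw [h0, integral_withDensity_eq_integral_smul hmeas]
  have h1 : ∀ x : ℝ, ((gammaPDFReal a c x).toNNReal • Complex.exp (-(z * x)) : ℂ) =
      (Ioi (0 : ℝ)).indicator (fun x : ℝ => ((c ^ a / Real.Gamma a : ℝ) : ℂ) *
        ((x : ℂ) ^ ((a : ℂ) - 1) * Complex.exp (-((c + z) * x)))) x ∨ x = 0 := by
    intro x
    rcases lt_trichotomy x 0 with hx | hx | hx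
    · left
      rw [indicator_of_notMem (by simpa using hx.le)]
      unfold gammaPDFReal
      rw [if_neg (not_le.2 hx)]
      simp
    · right; exact hx
    · left
      rw [indicator_of_mem (by simpa using hx)]
      rw [NNReal.smul_def, Real.coe_toNNReal _ (gammaPDFReal_nonneg ha hc x)]
      unfold gammaPDFReal
      rw [if_pos hx.le, Complex.real_smul]
      push_cast
      rw [Complex.ofReal_cpow hx.le]
      push_cast
      have : Complex.exp (-((c + z) * x)) = Complex.exp (-(c * x)) * Complex.exp (-(z * x)) := by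
        rw [← Complex.exp_add]; congr 1; ring
      rw [this]
      ring
  have h2 : ∫ x : ℝ, ((gammaPDFReal a c x).toNNReal • Complex.exp (-(z * x)) : ℂ) =
      ∫ x : ℝ, (Ioi (0 : ℝ)).indicator (fun x : ℝ => ((c ^ a / Real.Gamma a : ℝ) : ℂ) *
        ((x : ℂ) ^ ((a : ℂ) - 1) * Complex.exp (-((c + z) * x)))) x := by
    apply integral_congr_ae
    have h3 : ∀ᵐ x : ℝ, x ≠ 0 := by
      rw [ae_iff]; simp
    filter_upwards [h3] with x hx
    exact (h1 x).resolve_right hx
  rw [h2, integral_indicator measurableSet_Ioi, integral_const_mul,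
    Pool.Agent.H581R3.GPR.Rot.rot_formula (by simpa using ha)
      (by rw [Complex.add_re, Complex.ofReal_re]; linarith)]
  rw [Complex.Gamma_ofReal, Complex.ofReal_div, Complex.ofReal_cpow hc.le]
  have hG' : (Real.Gamma a : ℂ) ≠ 0 := by exact_mod_cast hG.ne'
  field_simp

/-- the law of the sum of independent Gamma(3/2,1) and Gamma(1/2,3) variables -/
noncomputable def PP : Measure ℝ :=
  ((gammaMeasure (3 / 2) 1).prod (gammaMeasure (1 / 2) 3)).map fun p => p.1 + p.2

instance g1 : IsProbabilityMeasure (gammaMeasure (3 / 2) 1) :=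
  isProbabilityMeasure_gammaMeasure (by norm_num) (by norm_num)

instance g2 : IsProbabilityMeasure (gammaMeasure (1 / 2) 3) :=
  isProbabilityMeasure_gammaMeasure (by norm_num) (by norm_num)

instance : IsProbabilityMeasure PP := by
  unfold PP
  exact Measure.isProbabilityMeasure_map (by fun_prop)

theorem PP_lap {z : ℂ} (hz : 0 ≤ z.re) :
    ∫ r, Complex.exp (-(z * r)) ∂PP =
      (3 : ℂ) ^ ((1 / 2 : ℝ) : ℂ) * ((1 / (1 + z)) ^ ((3 / 2 : ℝ) : ℂ) *
        (1 / (3 + z)) ^ ((1 / 2 : ℝ) : ℂ)) := by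
  unfold PP
  rw [integral_map (by fun_prop) (by fun_prop)]
  have h1 : ∀ p : ℝ × ℝ, Complex.exp (-(z * ((p.1 + p.2 : ℝ) : ℂ))) =
      Complex.exp (-(z * p.1)) * Complex.exp (-(z * p.2)) := by
    intro p
    rw [← Complex.exp_add]; congr 1; push_cast; ring
  simp_rw [h1]
  rw [integral_prod_mul (f := fun r : ℝ => Complex.exp (-(z * r)))
    (g := fun r : ℝ => Complex.exp (-(z * r))),
    gamma_lap (by norm_num) (by norm_num) hz, gamma_lap (by norm_num) (by norm_num) hz]
  push_cast
  rw [Complex.one_cpow]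
  ring

theorem gamma_nonneg {a c : ℝ} : ∀ᵐ r ∂(gammaMeasure a c), 0 ≤ r := by
  unfold gammaMeasure
  rw [ae_withDensity_iff (by
    unfold gammaPDF
    exact (measurable_gammaPDFReal a c).ennreal_ofReal)]
  refine Eventually.of_forall fun x hx => ?_
  by_contra h
  exact hx (gammaPDF_of_neg (not_le.1 h))

theorem PP_nonneg : ∀ᵐ r ∂PP, 0 ≤ r := by
  unfold PP
  rw [ae_map_iff (by fun_prop) measurableSet_Ici]
  have h1 : ∀ᵐ p ∂((gammaMeasure (3 / 2) 1).prod (gammaMeasure (1 / 2) 3)), 0 ≤ p.1 :=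
    Measure.quasiMeasurePreserving_fst.ae gamma_nonneg
  have h2 : ∀ᵐ p ∂((gammaMeasure (3 / 2) 1).prod (gammaMeasure (1 / 2) 3)), 0 ≤ p.2 :=
    Measure.quasiMeasurePreserving_snd.ae gamma_nonneg
  filter_upwards [h1, h2] with p hp1 hp2
  exact add_nonneg hp1 hp2

/-- the angle -/
noncomputable def th (η : ℝ) : ℝ := 3 / 2 * Real.arctan η + 1 / 2 * Real.arctan (η / 3)

/-- real part of the transform on the imaginary axis -/
noncomputable def RR (η : ℝ) : ℝ :=
  Real.exp (-(3 / 4) * Real.log (1 + η ^ 2) - 1 / 4 * Real.log (9 + η ^ 2)) * Real.cos (th η)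

theorem log_inv_add {a : ℝ} (ha : 0 < a) (η : ℝ) :
    Complex.log (1 / (a + η * Complex.I)) =
      ((-(1 / 2) * Real.log (a ^ 2 + η ^ 2) : ℝ) : ℂ) - (Real.arctan (η / a) : ℝ) * Complex.I := by
  have hre : 0 < ((a : ℂ) + η * Complex.I).re := by simpa using ha
  have harg : Complex.arg ((a : ℂ) + η * Complex.I) = Real.arctan (η / a) := by
    rw [Complex.arg_of_re_nonneg hre.le, Real.arctan_eq_arcsin]
    congr 1
    have h1 : ‖(a : ℂ) + η * Complex.I‖ = Real.sqrt (a ^ 2 + η ^ 2) := by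
      rw [Complex.norm_def, Complex.normSq_apply]
      congr 1
      simp
      ring
    rw [h1]
    have h2 : Real.sqrt (1 + (η / a) ^ 2) = Real.sqrt (a ^ 2 + η ^ 2) / a := by
      rw [eq_div_iff ha.ne', ← Real.sqrt_sq ha.le, ← Real.sqrt_mul (by positivity)]
      congr 1
      rw [Real.sqrt_sq ha.le]
      field_simp
    rw [h2]
    simp
    field_simp
  have hne : Complex.arg ((a : ℂ) + η * Complex.I) ≠ Real.pi := by
    rw [harg]
    have := Real.arctan_lt_pi_div_two (η / a)
    have := Real.pi_pos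
    linarith
  rw [one_div, Complex.log_inv _ hne]
  generalize Real.arctan (η / a) = A at harg
  apply Complex.ext
  · rw [Complex.neg_re, Complex.log_re]
    have h1 : ‖(a : ℂ) + η * Complex.I‖ = Real.sqrt (a ^ 2 + η ^ 2) := by
      rw [Complex.norm_def, Complex.normSq_apply]
      congr 1
      simp
      ring
    rw [h1, Real.log_sqrt (by positivity)]
    simp
    ring
  · rw [Complex.neg_im, Complex.log_im, harg]
    simp

theorem H_re (η : ℝ) :
    ((1 / (1 + (η : ℂ) * Complex.I)) ^ ((3 / 2 : ℝ) : ℂ) *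
      (1 / (3 + (η : ℂ) * Complex.I)) ^ ((1 / 2 : ℝ) : ℂ)).re = RR η := by
  have h1 : (1 + (η : ℂ) * Complex.I) ≠ 0 := by
    intro h
    have := congrArg Complex.re h
    simp at this
  have h3 : (3 + (η : ℂ) * Complex.I) ≠ 0 := by
    intro h
    have := congrArg Complex.re h
    simp at this
  rw [Complex.cpow_def_of_ne_zero (one_div_ne_zero h1), Complex.cpow_def_of_ne_zero
    (one_div_ne_zero h3), ← Complex.exp_add, Complex.exp_re]
  have e1 := log_inv_add (a := 1) one_pos η
  have e3 := log_inv_add (a := 3) (by norm_num) η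
  unfold RR th
  rw [div_one] at e1
  generalize Real.arctan η = A at e1 ⊢
  generalize Real.arctan (η / 3) = B at e3 ⊢
  push_cast at e1 e3
  rw [e1, e3]
  congr 1
  · congr 1
    simp
    norm_num
    ring
  · have : ∀ x y : ℝ, x = -y → Real.cos x = Real.cos y := by
      intro x y h; rw [h, Real.cos_neg]
    apply this
    simp
    ring

end Pool.Agent.Q289.TS
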