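import Pool.Agent.Q289.TS.HH

open MeasureTheory Set Filter Topology

namespace Pool.Agent.Q289.TS

theorem PP_exp_integrable {z : ℂ} (hz : 0 ≤ z.re) :
    Integrable (fun r : ℝ => Complex.exp (-(z * r))) PP := by
  refine Integrable.mono' (integrable_const 1) (by fun_prop) ?_
  filter_upwards [PP_nonneg] with r hr
  rw [Complex.norm_exp]
  simp only [Complex.neg_re, Complex.mul_re, Complex.ofReal_re, Complex.ofReal_im, mul_zero,
    sub_zero]
  rw [Real.exp_le_one_iff]
  have := mul_nonneg hz hr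
  linarith

theorem three_cpow : (3 : ℂ) ^ ((1 / 2 : ℝ) : ℂ) = ((Real.sqrt 3 : ℝ) : ℂ) := by
  rw [Real.sqrt_eq_rpow]
  have := Complex.ofReal_cpow (x := 3) (by norm_num) (1 / 2)
  rw [this]
  push_cast
  rfl

theorem PP_cos (η : ℝ) : ∫ r, Real.cos (r * η) ∂PP = Real.sqrt 3 * RR η := by
  have h1 := PP_lap (z := (η : ℂ) * Complex.I) (by simp)
  have h2 := congrArg Complex.re h1
  rw [three_cpow, Complex.re_ofReal_mul, H_re] at h2
  rw [← h2]
  have h3 : (∫ r, Complex.exp (-((η : ℂ) * Complex.I * r)) ∂PP).re =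
      ∫ r, (Complex.exp (-((η : ℂ) * Complex.I * r))).re ∂PP :=
    (integral_re (PP_exp_integrable (z := (η : ℂ) * Complex.I) (by simp))).symm
  rw [h3]
  refine integral_congr_ae (Eventually.of_forall fun r => ?_)
  simp only
  rw [Complex.exp_re]
  simp
  ring_nf

/-- the transform on the positive axis -/
noncomputable def Hr (u : ℝ) : ℝ := 1 / Real.sqrt ((1 + u) ^ 3 * (3 + u))

theorem PP_exp {u : ℝ} (hu : 0 < u) : ∫ r, Real.exp (-u * r) ∂PP = Real.sqrt 3 * Hr u := by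
  have h1 := PP_lap (z := (u : ℂ)) (by simpa using hu.le)
  have h2 := congrArg Complex.re h1
  have h3 : (∫ r, Complex.exp (-((u : ℂ) * r)) ∂PP).re =
      ∫ r, (Complex.exp (-((u : ℂ) * r))).re ∂PP :=
    (integral_re (PP_exp_integrable (z := (u : ℂ)) (by simpa using hu.le))).symm
  rw [h3, three_cpow, Complex.re_ofReal_mul] at h2
  have h4 : ∫ r, Real.exp (-u * r) ∂PP = ∫ r, (Complex.exp (-((u : ℂ) * r))).re ∂PP := by
    refine integral_congr_ae (Eventually.of_forall fun r => ?_)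
    simp only
    rw [Complex.exp_re]
    simp
  rw [h4, h2]
  congr 1
  have e1 : (1 / (1 + (u : ℂ))) ^ ((3 / 2 : ℝ) : ℂ) = (((1 / (1 + u)) ^ (3 / 2 : ℝ) : ℝ) : ℂ) := by
    rw [Complex.ofReal_cpow (by positivity)]
    push_cast
    rfl
  have e2 : (1 / (3 + (u : ℂ))) ^ ((1 / 2 : ℝ) : ℂ) = (((1 / (3 + u)) ^ (1 / 2 : ℝ) : ℝ) : ℂ) := by
    rw [Complex.ofReal_cpow (by positivity)]
    push_cast
    rfl
  rw [e1, e2, ← Complex.ofReal_mul, Complex.ofReal_re]
  unfold Hr
  have h5 : (1 / (1 + u)) ^ (3 / 2 : ℝ) = Real.sqrt ((1 / (1 + u)) ^ 3) := by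
    rw [Real.sqrt_eq_rpow, ← Real.rpow_natCast, ← Real.rpow_mul (by positivity)]
    norm_num
  have h6 : (1 / (1 + u)) ^ 3 * (1 / (3 + u)) = ((1 + u) ^ 3 * (3 + u))⁻¹ := by field_simp
  rw [h5, ← Real.sqrt_eq_rpow, ← Real.sqrt_mul (by positivity), h6, Real.sqrt_inv, one_div]

theorem RR_cont : Continuous RR := by
  unfold RR th
  have h1 : ∀ η : ℝ, 1 + η ^ 2 ≠ 0 := fun η => by positivity
  have h2 : ∀ η : ℝ, 9 + η ^ 2 ≠ 0 := fun η => by positivity
  fun_prop (disch := assumption)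

theorem amp_le (η : ℝ) :
    Real.exp (-(3 / 4) * Real.log (1 + η ^ 2) - 1 / 4 * Real.log (9 + η ^ 2)) ≤ (1 + η ^ 2)⁻¹ := by
  have h0 : 0 < 1 + η ^ 2 := by positivity
  have h1 : Real.log (1 + η ^ 2) ≤ Real.log (9 + η ^ 2) := Real.log_le_log h0 (by linarith)
  have h2 : (1 + η ^ 2)⁻¹ = Real.exp (-Real.log (1 + η ^ 2)) := by
    rw [Real.exp_neg, Real.exp_log h0]
  rw [h2]
  apply Real.exp_le_exp.2
  linarith

theorem RR_bound (η : ℝ) : |RR η| ≤ (1 + η ^ 2)⁻¹ := by
  unfold RR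
  rw [abs_mul, abs_of_pos (Real.exp_pos _)]
  have h1 := amp_le η
  have h2 := Real.abs_cos_le_one (th η)
  have h3 : 0 < (1 + η ^ 2)⁻¹ := by positivity
  calc _ ≤ (1 + η ^ 2)⁻¹ * 1 := by gcongr
    _ = _ := mul_one _

theorem RR_integrable : Integrable RR :=
  Integrable.mono' integrable_inv_one_add_sq RR_cont.aestronglyMeasurable
    (Eventually.of_forall fun η => by rw [Real.norm_eq_abs]; exact RR_bound η)

theorem poisson {u : ℝ} (hu : 0 < u) :
    ∫ η in Ioi (0 : ℝ), RR η / (u ^ 2 + η ^ 2) = Real.pi / (2 * u) * Hr u := by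
  have h3 : (0 : ℝ) < Real.sqrt 3 := by positivity
  have h1 : ∀ η : ℝ, RR η / (u ^ 2 + η ^ 2) =
      (Real.sqrt 3)⁻¹ * ∫ r, Real.cos (r * η) / (u ^ 2 + η ^ 2) ∂PP := by
    intro η
    rw [integral_div, PP_cos]
    field_simp
  simp_rw [h1]
  rw [integral_const_mul]
  have hci : Integrable (fun η : ℝ => 1 / (u ^ 2 + η ^ 2)) (volume.restrict (Ioi 0)) := by
    have := ((cauchy_integrable hu).const_mul (Real.pi / u)).integrableOn (s := Ioi (0 : ℝ))
    refine this.congr (Eventually.of_forall fun η => ?_)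
    simp only
    have hpi := Real.pi_pos
    have : u ^ 2 + η ^ 2 ≠ 0 := by positivity
    field_simp
  have hint : Integrable (Function.uncurry fun η r : ℝ => Real.cos (r * η) / (u ^ 2 + η ^ 2))
      ((volume.restrict (Ioi (0 : ℝ))).prod PP) := by
    have hprod : Integrable (fun p : ℝ × ℝ => (1 / (u ^ 2 + p.1 ^ 2)) * (1 : ℝ))
        ((volume.restrict (Ioi (0 : ℝ))).prod PP) := hci.mul_prod (integrable_const (1 : ℝ))
    refine hprod.mono' ?_ ?_
    · have hc : Continuous fun p : ℝ × ℝ => Real.cos (p.2 * p.1) / (u ^ 2 + p.1 ^ 2) := by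
        have : ∀ p : ℝ × ℝ, u ^ 2 + p.1 ^ 2 ≠ 0 := fun p => by positivity
        fun_prop (disch := assumption)
      exact hc.aestronglyMeasurable
    · refine Eventually.of_forall fun p => ?_
      simp only [Function.uncurry, mul_one]
      rw [Real.norm_eq_abs, abs_div, abs_of_pos (by positivity : 0 < u ^ 2 + p.1 ^ 2)]
      have := Real.abs_cos_le_one (p.2 * p.1)
      gcongr
  rw [integral_integral_swap hint]
  simp_rw [cauchy_cos_half hu]
  have h4 : ∫ r, Real.pi / (2 * u) * Real.exp (-u * |r|) ∂PP =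
      Real.pi / (2 * u) * ∫ r, Real.exp (-u * r) ∂PP := by
    rw [← integral_const_mul]
    refine integral_congr_ae ?_
    filter_upwards [PP_nonneg] with r hr
    rw [abs_of_nonneg hr]
  rw [h4, PP_exp hu]
  field_simp

/-- the sign change -/
noncomputable def e0 : ℝ := Real.sqrt (5 / 3)

theorem e0_sq : e0 ^ 2 = 5 / 3 := Real.sq_sqrt (by norm_num)

theorem e0_pos : 0 < e0 := Real.sqrt_pos.2 (by norm_num)

theorem th_e0 : th e0 = Real.pi / 2 := by
  have h0 := e0_pos
  have hsq := e0_sq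
  have h1 : 1 < e0 := by nlinarith
  have h2 := Real.two_mul_arctan_add_pi h1
  have h3 : 2 * e0 / (1 - e0 ^ 2) = -(3 * e0) := by
    rw [hsq]; norm_num; ring
  rw [h3, Real.arctan_neg] at h2
  have h4 := Real.arctan_add (x := e0) (y := e0 / 3) (by nlinarith)
  have h5 : (e0 + e0 / 3) / (1 - e0 * (e0 / 3)) = 3 * e0 := by
    have h6 : e0 * (e0 / 3) = 5 / 9 := by nlinarith
    rw [h6]; norm_num; ring
  rw [h5] at h4
  unfold th
  linarith

theorem th_mono : Monotone th := by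
  intro x y h
  unfold th
  have h1 := Real.arctan_strictMono.monotone h
  have h2 := Real.arctan_strictMono.monotone (show x / 3 ≤ y / 3 by linarith)
  linarith

theorem th_zero : th 0 = 0 := by simp [th]

theorem th_lt_pi (η : ℝ) : th η < Real.pi := by
  unfold th
  have h1 := Real.arctan_lt_pi_div_two η
  have h2 := Real.arctan_lt_pi_div_two (η / 3)
  linarith

theorem RR_nonneg {η : ℝ} (h0 : 0 ≤ η) (h1 : η ≤ e0) : 0 ≤ RR η := by
  unfold RR
  apply mul_nonneg (Real.exp_pos _).le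
  apply Real.cos_nonneg_of_neg_pi_div_two_le_of_le
  · have := th_mono h0
    rw [th_zero] at this
    linarith [Real.pi_pos]
  · have := th_mono h1
    rwa [th_e0] at this

theorem RR_nonpos {η : ℝ} (h1 : e0 ≤ η) : RR η ≤ 0 := by
  unfold RR
  apply mul_nonpos_of_nonneg_of_nonpos (Real.exp_pos _).le
  apply Real.cos_nonpos_of_pi_div_two_le_of_le
  · have := th_mono h1
    rwa [th_e0] at this
  · linarith [th_lt_pi η, Real.pi_pos]

theorem RR_anti {x y : ℝ} (h0 : 0 ≤ x) (hxy : x ≤ y) (hy : y ≤ e0) : RR y ≤ RR x := by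
  unfold RR
  have hx2 : x ^ 2 ≤ y ^ 2 := by nlinarith
  have hc : Real.cos (th y) ≤ Real.cos (th x) := by
    apply Real.cos_le_cos_of_nonneg_of_le_pi
    · have := th_mono h0
      rwa [th_zero] at this
    · exact (th_lt_pi y).le
    · exact th_mono hxy
  have hcn : 0 ≤ Real.cos (th y) := by
    apply Real.cos_nonneg_of_neg_pi_div_two_le_of_le
    · have := th_mono (h0.trans hxy)
      rw [th_zero] at this
      linarith [Real.pi_pos]
    · have := th_mono hy
      rwa [th_e0] at this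
  have hl1 : Real.log (1 + x ^ 2) ≤ Real.log (1 + y ^ 2) :=
    Real.log_le_log (by positivity) (by linarith)
  have hl2 : Real.log (9 + x ^ 2) ≤ Real.log (9 + y ^ 2) :=
    Real.log_le_log (by positivity) (by linarith)
  have he : Real.exp (-(3 / 4) * Real.log (1 + y ^ 2) - 1 / 4 * Real.log (9 + y ^ 2)) ≤
      Real.exp (-(3 / 4) * Real.log (1 + x ^ 2) - 1 / 4 * Real.log (9 + x ^ 2)) := by
    apply Real.exp_le_exp.2
    linarith
  exact mul_le_mul he hc hcn (Real.exp_pos _).le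

/-- the total integral of `RR` vanishes -/
theorem RR_total : ∫ η in Ioi (0 : ℝ), RR η = 0 := by
  -- `u² ∫ RR/(u²+η²) → ∫ RR` and the left side is `(π/2) u Hr u → 0`
  have h1 : Tendsto (fun n : ℕ => ∫ η in Ioi (0 : ℝ), RR η * ((((n : ℝ) + 1) ^ 2) /
      (((n : ℝ) + 1) ^ 2 + η ^ 2))) atTop (𝓝 (∫ η in Ioi (0 : ℝ), RR η)) := by
    apply tendsto_integral_of_dominated_convergence (fun η => |RR η|)
    · intro n
      have hc : Continuous fun η : ℝ => RR η * ((((n : ℝ) + 1) ^ 2) /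
          (((n : ℝ) + 1) ^ 2 + η ^ 2)) := by
        have h2 : ∀ η : ℝ, ((n : ℝ) + 1) ^ 2 + η ^ 2 ≠ 0 := fun η => by positivity
        have := RR_cont
        fun_prop (disch := assumption)
      exact hc.aestronglyMeasurable
    · exact RR_integrable.abs.integrableOn
    · intro n
      refine Eventually.of_forall fun η => ?_
      rw [norm_mul, Real.norm_eq_abs]
      have h2 : ‖(((n : ℝ) + 1) ^ 2) / (((n : ℝ) + 1) ^ 2 + η ^ 2)‖ ≤ 1 := by
        rw [Real.norm_eq_abs, abs_of_nonneg (by positivity), div_le_one (by positivity)]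
        nlinarith [sq_nonneg η]
      exact mul_le_of_le_one_right (abs_nonneg _) h2
    · refine Eventually.of_forall fun η => ?_
      have h2 : Tendsto (fun n : ℕ => (((n : ℝ) + 1) ^ 2) / (((n : ℝ) + 1) ^ 2 + η ^ 2)) atTop
          (𝓝 1) := by
        have h3 : ∀ n : ℕ, (((n : ℝ) + 1) ^ 2) / (((n : ℝ) + 1) ^ 2 + η ^ 2) =
            1 / (1 + η ^ 2 * (1 / ((n : ℝ) + 1)) ^ 2) := by
          intro n
          have : (n : ℝ) + 1 ≠ 0 := by positivity
          field_simp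
        simp_rw [h3]
        have h4 : Tendsto (fun n : ℕ => 1 / (1 + η ^ 2 * (1 / ((n : ℝ) + 1)) ^ 2)) atTop
            (𝓝 (1 / (1 + η ^ 2 * 0 ^ 2))) := by
          apply Tendsto.div tendsto_const_nhds _ (by simp)
          exact tendsto_const_nhds.add (tendsto_const_nhds.mul
            (tendsto_one_div_add_atTop_nhds_zero_nat.pow 2))
        simpa using h4
      simpa using h2.const_mul (RR η)
  have h2 : ∀ n : ℕ, ∫ η in Ioi (0 : ℝ), RR η * ((((n : ℝ) + 1) ^ 2) /
      (((n : ℝ) + 1) ^ 2 + η ^ 2)) = Real.pi / 2 * (((n : ℝ) + 1) * Hr ((n : ℝ) + 1)) := by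
    intro n
    have h3 : ∀ η : ℝ, RR η * ((((n : ℝ) + 1) ^ 2) / (((n : ℝ) + 1) ^ 2 + η ^ 2)) =
        ((n : ℝ) + 1) ^ 2 * (RR η / (((n : ℝ) + 1) ^ 2 + η ^ 2)) := by intro η; ring
    simp_rw [h3]
    rw [integral_const_mul, poisson (by positivity)]
    field_simp
  have h3 : Tendsto (fun n : ℕ => Real.pi / 2 * (((n : ℝ) + 1) * Hr ((n : ℝ) + 1))) atTop
      (𝓝 (Real.pi / 2 * 0)) := by
    apply Tendsto.const_mul
    apply squeeze_zero (g := fun n : ℕ => 1 / ((n : ℝ) + 1))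
    · intro n
      unfold Hr; positivity
    · intro n
      have hu : (0 : ℝ) < (n : ℝ) + 1 := by positivity
      unfold Hr
      have h4 : ((n : ℝ) + 1) ^ 2 ≤ Real.sqrt ((1 + ((n : ℝ) + 1)) ^ 3 * (3 + ((n : ℝ) + 1))) := by
        apply Real.le_sqrt_of_sq_le
        have : ((n : ℝ) + 1) ^ 3 ≤ (1 + ((n : ℝ) + 1)) ^ 3 :=
          pow_le_pow_left₀ hu.le (by linarith) 3
        have h5 : ((n : ℝ) + 1) ≤ 3 + ((n : ℝ) + 1) := by linarith
        calc (((n : ℝ) + 1) ^ 2) ^ 2 = ((n : ℝ) + 1) ^ 3 * ((n : ℝ) + 1) := by ring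
          _ ≤ _ := by gcongr
      rw [mul_one_div, div_le_div_iff₀ (by positivity) hu]
      calc ((n : ℝ) + 1) * ((n : ℝ) + 1) = ((n : ℝ) + 1) ^ 2 := by ring
        _ ≤ _ := h4
        _ = _ := by ring
    · exact tendsto_one_div_add_atTop_nhds_zero_nat
  simp_rw [h2] at h1
  rw [mul_zero] at h3
  exact tendsto_nhds_unique h1 h3

end Pool.Agent.Q289.TS
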