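import Pool.Agent.H506R3.Mag.Boch2

open MeasureTheory Set Filter Topology
open scoped FourierTransform RealInnerProductSpace NNReal

namespace Pool.Agent.Q289.TS

open Pool.Agent.H506R3.Mag

theorem ct_int' {f : ℝ → ℝ} (h0 : ∀ ξ, 0 ≤ ct f ξ) (hc : Continuous f) (hb : ∀ x, |f x| ≤ 1)
    (hi : Integrable f) (he : ∀ x, f (-x) = f x) : Integrable (ct f) := by
  have hcc := ct_cont hc hi he
  have hbd : ∀ ξ, |ct f ξ| ≤ ∫ x, |f x| := by
    intro ξ
    have h1 : ‖ct f ξ‖ ≤ ∫ x, |f x| := by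
      unfold ct
      refine norm_integral_le_of_norm_le hi.abs (Filter.Eventually.of_forall fun x => ?_)
      rw [norm_mul, Real.norm_eq_abs, Real.norm_eq_abs]
      exact mul_le_of_le_one_right (abs_nonneg _) (Real.abs_cos_le_one _)
    exact h1
  refine ⟨hcc.aestronglyMeasurable, ?_⟩
  have hlim : ∀ ξ : ℝ, Tendsto (fun k : ℕ => gau (1 / ((k : ℝ) + 1)) ξ * ct f ξ) atTop
      (𝓝 (ct f ξ)) := by
    intro ξ
    have h1 : Tendsto (fun k : ℕ => gau ((1 / ((k : ℝ) + 1))) ξ) atTop (𝓝 1) := by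
      have h2 : Tendsto (fun k : ℕ => -((1 / ((k : ℝ) + 1))) * ‖ξ‖ ^ 2) atTop
          (𝓝 (-(0) * ‖ξ‖ ^ 2)) :=
        ((tendsto_one_div_add_atTop_nhds_zero_nat).neg).mul_const _
      have h3 := (Real.continuous_exp.tendsto _).comp h2
      simpa [gau, Function.comp_def] using h3
    simpa using h1.mul_const (ct f ξ)
  have hk : ∀ k : ℕ, ∫⁻ ξ, ENNReal.ofReal (gau (1 / ((k : ℝ) + 1)) ξ * ct f ξ) ≤ 1 := by
    intro k
    have hpos : (0 : ℝ) < 1 / ((k : ℝ) + 1) := by positivity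
    have hint : Integrable (fun ξ => gau (1 / ((k : ℝ) + 1)) ξ * ct f ξ) := by
      refine ((gau_int (V := ℝ) hpos).mul_const (∫ x, |f x|)).mono
        ((gau_cont _).mul hcc).aestronglyMeasurable (Filter.Eventually.of_forall fun ξ => ?_)
      rw [norm_mul, norm_mul]
      refine mul_le_mul_of_nonneg_left ?_ (norm_nonneg _)
      exact (hbd ξ).trans (le_abs_self _)
    rw [← ofReal_integral_eq_lintegral_ofReal hint
      (Filter.Eventually.of_forall fun ξ => mul_nonneg (gau_pos _ _).le (h0 ξ))]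
    rw [ENNReal.ofReal_le_one]
    exact gau_ct_le hc hb hi he hpos
  have h1 : ∫⁻ ξ, ‖ct f ξ‖ₑ ≤ 1 := by
    have h2 : ∀ ξ, ‖ct f ξ‖ₑ =
        liminf (fun k : ℕ => ENNReal.ofReal (gau (1 / ((k : ℝ) + 1)) ξ * ct f ξ)) atTop := by
      intro ξ
      rw [Real.enorm_eq_ofReal (h0 ξ)]
      exact ((ENNReal.tendsto_ofReal (hlim ξ)).liminf_eq).symm
    simp_rw [h2]
    refine (lintegral_liminf_le fun k => ?_).trans ?_
    · exact ((gau_cont _).mul hcc).measurable.ennreal_ofReal
    · refine liminf_le_of_frequently_le' (Filter.Frequently.of_forall fun k => hk k)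
  exact lt_of_le_of_lt h1 ENNReal.one_lt_top

theorem inv_measure {f : ℝ → ℝ} (hnn : ∀ ξ, 0 ≤ ct f ξ) (hc : Continuous f) (hb : ∀ x, |f x| ≤ 1)
    (hi : Integrable f) (he : ∀ x, f (-x) = f x) (h0 : f 0 = 1) :
    ∃ P : Measure ℝ, IsProbabilityMeasure P ∧ ∀ x, charFun P x = (f x : ℂ) := by
  have hcc := ct_cont hc hi he
  have hci := ct_int' hnn hc hb hi he
  have hF : 𝓕 (fun x => (f x : ℂ)) = fun ξ => (ct f ξ : ℂ) := funext (fourier_eq_ct hc hi he)
  have hinv : 𝓕⁻ (fun ξ => (ct f ξ : ℂ)) = fun x => (f x : ℂ) := by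
    rw [← hF]
    refine Continuous.fourierInv_fourier_eq (by fun_prop) hi.ofReal ?_
    rw [hF]
    exact hci.ofReal
  let G : ℝ → ℝ≥0 := fun x => Real.toNNReal (ct f x)
  have hG : ∀ x, (G x : ℝ) = ct f x := fun x => Real.coe_toNNReal _ (hnn x)
  have hGm : Measurable G := hcc.measurable.real_toNNReal
  let Q : Measure ℝ := volume.withDensity fun x => (G x : ENNReal)
  have hQ : IsFiniteMeasure Q := isFiniteMeasure_withDensity hci.lintegral_lt_top.ne
  let P : Measure ℝ := Q.map (fun x => (2 * Real.pi) • x)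
  have hPm : Measurable (fun x : ℝ => (2 * Real.pi) • x) := by fun_prop
  have hPf : IsFiniteMeasure P := Measure.isFiniteMeasure_map Q _
  have hchar : ∀ x, charFun P x = (f x : ℂ) := by
    intro x
    rw [charFun_apply, integral_map hPm.aemeasurable (by fun_prop)]
    rw [integral_withDensity_eq_integral_smul hGm]
    have h1 := congrFun hinv x
    rw [Real.fourierInv_eq'] at h1
    rw [← h1]
    refine integral_congr_ae (Filter.Eventually.of_forall fun ξ => ?_)
    simp only [NNReal.smul_def, hG, smul_eq_mul]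
    rw [Complex.real_smul, mul_comm]
    simp
    left
    ring_nf
  refine ⟨P, ⟨?_⟩, hchar⟩
  have h1 := hchar 0
  rw [charFun_zero, h0] at h1
  have h2 : P.real Set.univ = 1 := by exact_mod_cast h1
  rw [measureReal_def] at h2
  rw [← ENNReal.ofReal_toReal (measure_ne_top P Set.univ), h2, ENNReal.ofReal_one]

end Pool.Agent.Q289.TS
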