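import Pool.Agent.Q289.TS.Mono3
import Pool.Agent.Q289.TS.Kernel

open MeasureTheory Set Filter Topology

namespace Pool.Agent.Q289.TS

noncomputable def cc (x : ℝ) : ℝ := 1 / Real.sqrt (1 - x) - 1 / Real.sqrt x

noncomputable def ff (c : ℝ) : ℝ := 2 * Hr (Real.sqrt (1 + c ^ 2)) / Real.sqrt (1 + c ^ 2)

noncomputable def cd (x : ℝ) : ℝ := (1 / Real.sqrt (1 - x) ^ 3 + 1 / Real.sqrt x ^ 3) / 2

theorem cc_deriv {x : ℝ} (h0 : 0 < x) (h1 : x < 1) : HasDerivAt cc (cd x) x := by
  have hx : 0 < Real.sqrt x := Real.sqrt_pos.2 h0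
  have hy : 0 < Real.sqrt (1 - x) := Real.sqrt_pos.2 (by linarith)
  have e1 : HasDerivAt (fun x : ℝ => Real.sqrt x) (1 / (2 * Real.sqrt x)) x :=
    (hasDerivAt_id' x).sqrt h0.ne'
  have e2 : HasDerivAt (fun x : ℝ => Real.sqrt (1 - x)) (-1 / (2 * Real.sqrt (1 - x))) x :=
    ((hasDerivAt_id' x).const_sub 1).sqrt (by linarith)
  have e3 := ((hasDerivAt_const x (1 : ℝ)).fun_div e2 hy.ne').fun_sub
    ((hasDerivAt_const x (1 : ℝ)).fun_div e1 hx.ne')
  refine e3.congr_deriv ?_
  unfold cd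
  field_simp
  ring

theorem alg {x : ℝ} (h0 : 0 < x) (h1 : x < 1) : cd x * ff (cc x) = 1 := by
  have hs : 0 < Real.sqrt x := Real.sqrt_pos.2 h0
  have hr : 0 < Real.sqrt (1 - x) := Real.sqrt_pos.2 (by linarith)
  have hs2 : Real.sqrt x ^ 2 = x := Real.sq_sqrt h0.le
  have hr2 : Real.sqrt (1 - x) ^ 2 = 1 - x := Real.sq_sqrt (by linarith)
  unfold ff cc cd
  set s := Real.sqrt x with hsd
  set r := Real.sqrt (1 - x) with hrd
  have hsum : s ^ 2 + r ^ 2 = 1 := by rw [hs2, hr2]; ring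
  clear_value s r
  have hsr : s * r ≤ 1 / 2 := by nlinarith [sq_nonneg (s - r)]
  have hsr0 : 0 < s * r := mul_pos hs hr
  have hu : Real.sqrt (1 + (1 / r - 1 / s) ^ 2) = 1 / (s * r) - 1 := by
    have h2 : 1 + (1 / r - 1 / s) ^ 2 = (1 / (s * r) - 1) ^ 2 := by
      field_simp
      linear_combination hsum
    rw [h2, Real.sqrt_sq]
    rw [le_sub_iff_add_le, zero_add, le_div_iff₀ hsr0]
    linarith
  rw [hu]
  have hH : Hr (1 / (s * r) - 1) = 1 / (1 / (s * r) * (1 / s + 1 / r)) := by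
    unfold Hr
    congr 1
    have h3 : (1 + (1 / (s * r) - 1)) ^ 3 * (3 + (1 / (s * r) - 1)) =
        (1 / (s * r) * (1 / s + 1 / r)) ^ 2 := by
      field_simp
      linear_combination (-1) * hsum
    rw [h3, Real.sqrt_sq (by positivity)]
  rw [hH]
  have hne : 1 / (s * r) - 1 ≠ 0 := by
    have : 2 ≤ 1 / (s * r) := by rw [le_div_iff₀ hsr0]; linarith
    linarith
  have hne2 : 1 - s * r ≠ 0 := by linarith
  have h4 : 1 / (s * r) - 1 = (1 - s * r) / (s * r) := by field_simp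
  rw [h4]
  have h5 : s ^ 3 + r ^ 3 = (s + r) * (1 - s * r) := by
    linear_combination (s + r) * hsum
  generalize 1 - s * r = D at hne2 h5
  field_simp
  linear_combination h5

theorem cd_pos {x : ℝ} (h0 : 0 < x) (h1 : x < 1) : 0 < cd x := by
  have hs : 0 < Real.sqrt x := Real.sqrt_pos.2 h0
  have hr : 0 < Real.sqrt (1 - x) := Real.sqrt_pos.2 (by linarith)
  unfold cd
  positivity

theorem cc_mono : StrictMonoOn cc (Ioo 0 1) := by
  apply strictMonoOn_of_deriv_pos (convex_Ioo 0 1)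
    (fun y hy => (cc_deriv hy.1 hy.2).continuousAt.continuousWithinAt)
  intro y hy
  rw [interior_Ioo] at hy
  rw [(cc_deriv hy.1 hy.2).deriv]
  exact cd_pos hy.1 hy.2

theorem cc_symm (x : ℝ) : cc (1 - x) = -cc x := by
  unfold cc
  rw [show 1 - (1 - x) = x by ring]
  ring

theorem cc_surj : cc '' Ioo 0 1 = univ := by
  rw [eq_univ_iff_forall]
  intro c
  set M : ℝ := 2 + |c| with hM
  have hMc := abs_nonneg c
  have hM2 : 2 ≤ M := by linarith
  set a : ℝ := 1 / M ^ 2 with ha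
  have ha0 : 0 < a := by positivity
  have ha4 : a ≤ 1 / 4 := by
    rw [ha]
    apply one_div_le_one_div_of_le (by norm_num)
    nlinarith
  have hsa : Real.sqrt a = 1 / M := by
    rw [ha, Real.sqrt_div zero_le_one, Real.sqrt_one, Real.sqrt_sq (by linarith)]
  have h1 : cc a ≤ -|c| := by
    unfold cc
    rw [hsa, one_div_one_div]
    have : 1 / Real.sqrt (1 - a) ≤ 2 := by
      rw [div_le_iff₀ (Real.sqrt_pos.2 (by linarith))]
      have : 1 / 2 ≤ Real.sqrt (1 - a) := by
        apply Real.le_sqrt_of_sq_le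
        linarith
      linarith
    linarith
  have h2 : |c| ≤ cc (1 - a) := by rw [cc_symm]; linarith
  have hco : ContinuousOn cc (Icc a (1 - a)) := fun y hy =>
    (cc_deriv (ha0.trans_le hy.1) (by linarith [hy.2])).continuousAt.continuousWithinAt
  have h3 := intermediate_value_Icc (by linarith : a ≤ 1 - a) hco
  have h4 : c ∈ Icc (cc a) (cc (1 - a)) :=
    ⟨h1.trans (neg_abs_le c), (le_abs_self c).trans h2⟩
  obtain ⟨y, hy, hyc⟩ := h3 h4
  exact ⟨y, ⟨ha0.trans_le hy.1, by linarith [hy.2]⟩, hyc⟩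

/-- change of variables -/
theorem cov (ψ : ℝ → ℝ) : ∫ x in Ioo (0 : ℝ) 1, ψ (cc x) = ∫ c, ψ c * ff c := by
  have h := integral_image_eq_integral_abs_deriv_smul (s := Ioo (0 : ℝ) 1) (f := cc) (f' := cd)
    measurableSet_Ioo (fun x hx => (cc_deriv hx.1 hx.2).hasDerivWithinAt) cc_mono.injOn
    (fun c => ψ c * ff c)
  rw [cc_surj, setIntegral_univ] at h
  rw [h]
  refine setIntegral_congr_fun measurableSet_Ioo fun x hx => ?_
  simp only [smul_eq_mul]
  rw [abs_of_pos (cd_pos hx.1 hx.2)]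
  have := alg hx.1 hx.2
  calc ψ (cc x) = ψ (cc x) * (cd x * ff (cc x)) := by rw [this, mul_one]
    _ = _ := by ring

theorem ff_eq (c : ℝ) : ff c = 4 / Real.pi * ∫ η in Ioi (0 : ℝ), RR η / (1 + c ^ 2 + η ^ 2) := by
  have hu : 0 < Real.sqrt (1 + c ^ 2) := Real.sqrt_pos.2 (by positivity)
  have h := poisson hu
  rw [Real.sq_sqrt (by positivity)] at h
  rw [h]
  unfold ff
  field_simp
  ring

theorem cauchy_plain {u : ℝ} (hu : 0 < u) (t : ℝ) :
    ∫ c : ℝ, Real.cos (t * c) / (u ^ 2 + c ^ 2) = Real.pi / u * Real.exp (-u * |t|) := by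
  rw [← cauchy_cos hu t, ← integral_const_mul]
  refine integral_congr_ae (Eventually.of_forall fun c => ?_)
  simp only
  have : 0 < u ^ 2 + c ^ 2 := by positivity
  field_simp

theorem cos_ff (t : ℝ) : ∫ c : ℝ, Real.cos (t * c) * ff c = gg t := by
  have hint : Integrable (Function.uncurry fun (c η : ℝ) =>
      Real.cos (t * c) * (RR η / (1 + c ^ 2 + η ^ 2)))
      ((volume : Measure ℝ).prod (volume.restrict (Ioi (0 : ℝ)))) := by
    have hb : Integrable (fun p : ℝ × ℝ => (1 + p.1 ^ 2)⁻¹ * (1 + p.2 ^ 2)⁻¹)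
        ((volume : Measure ℝ).prod (volume.restrict (Ioi (0 : ℝ)))) :=
      integrable_inv_one_add_sq.mul_prod integrable_inv_one_add_sq.integrableOn
    refine Integrable.mono' hb ?_ (Eventually.of_forall fun p => ?_)
    · refine Continuous.aestronglyMeasurable ?_
      refine Continuous.mul (by fun_prop) ?_
      refine (RR_cont.comp continuous_snd).div (by fun_prop) ?_
      intro p
      positivity
    · simp only [Function.uncurry]
      rw [norm_mul, norm_div, Real.norm_eq_abs, Real.norm_eq_abs, Real.norm_eq_abs]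
      have h1 : |Real.cos (t * p.1)| ≤ 1 := Real.abs_cos_le_one _
      have h2 := RR_bound p.2
      have h3 : 0 < 1 + p.1 ^ 2 + p.2 ^ 2 := by positivity
      rw [abs_of_pos h3]
      have h4 : |RR p.2| / (1 + p.1 ^ 2 + p.2 ^ 2) ≤ (1 + p.1 ^ 2)⁻¹ * (1 + p.2 ^ 2)⁻¹ := by
        rw [div_eq_inv_mul]
        refine mul_le_mul ?_ h2 (abs_nonneg _) (by positivity)
        exact inv_anti₀ (by positivity) (by nlinarith [sq_nonneg p.2])
      calc _ ≤ 1 * (|RR p.2| / (1 + p.1 ^ 2 + p.2 ^ 2)) :=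
            mul_le_mul_of_nonneg_right h1 (by positivity)
        _ ≤ _ := by rw [one_mul]; exact h4
  have h1 : ∀ c : ℝ, Real.cos (t * c) * ff c = 4 / Real.pi *
      ∫ η in Ioi (0 : ℝ), Real.cos (t * c) * (RR η / (1 + c ^ 2 + η ^ 2)) := by
    intro c
    rw [ff_eq, integral_const_mul]
    ring
  simp_rw [h1]
  rw [integral_const_mul, integral_integral_swap hint]
  unfold gg
  rw [← integral_const_mul]
  refine integral_congr_ae (Eventually.of_forall fun η => ?_)
  simp only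
  have h2 : ∀ c : ℝ, Real.cos (t * c) * (RR η / (1 + c ^ 2 + η ^ 2)) =
      RR η * (Real.cos (t * c) / (yy η ^ 2 + c ^ 2)) := by
    intro c
    rw [yy_sq]
    ring
  simp_rw [h2]
  rw [integral_const_mul, cauchy_plain (yy_pos η)]
  unfold ww
  have := (yy_pos η).ne'
  have := Real.pi_pos.ne'
  field_simp

theorem gg_law (t : ℝ) : ∫ x in Ioo (0 : ℝ) 1, Real.cos (t * cc x) = gg t := by
  rw [cov (fun c => Real.cos (t * c)), cos_ff]

theorem gg_zero : gg 0 = 1 := by
  rw [← gg_law]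
  simp

theorem hww : ∫ η in Ioi (0 : ℝ), ww η = 1 := by
  have := gg_zero
  unfold gg at this
  simpa using this

theorem sin_law (t : ℝ) : ∫ x in Ioo (0 : ℝ) 1, Real.sin (t * cc x) = 0 := by
  rw [cov (fun c => Real.sin (t * c))]
  have h : ∀ c : ℝ, Real.sin (t * -c) * ff (-c) = -(Real.sin (t * c) * ff c) := by
    intro c
    have : ff (-c) = ff c := by unfold ff; rw [neg_sq]
    rw [this, mul_neg, Real.sin_neg]
    ring
  have h2 := integral_neg_eq_self (fun c => Real.sin (t * c) * ff c) volume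
  simp_rw [h, integral_neg] at h2
  linarith

theorem gg_le_one (t : ℝ) : gg t ≤ 1 := by
  rw [← gg_law]
  have h1 : ∫ x in Ioo (0 : ℝ) 1, Real.cos (t * cc x) ≤ ∫ x in Ioo (0 : ℝ) 1, (1 : ℝ) := by
    refine setIntegral_mono_on ?_ (by simp) measurableSet_Ioo (fun x _ => Real.cos_le_one _)
    refine Integrable.mono' (integrable_const 1) ?_ (Eventually.of_forall fun x => ?_)
    · exact (by unfold cc; fun_prop : Measurable fun x => Real.cos (t * cc x)).aestronglyMeasurable
    · exact Real.abs_cos_le_one _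
  simpa using h1

end Pool.Agent.Q289.TS
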