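import Pool.Agent.Q289.TS.HH2

open MeasureTheory Set Filter Topology

namespace Pool.Agent.Q289.TS

noncomputable def yy (η : ℝ) : ℝ := Real.sqrt (1 + η ^ 2)
noncomputable def zz (η : ℝ) : ℝ := yy η - 1

theorem yy_ge (η : ℝ) : 1 ≤ yy η := by
  unfold yy
  rw [Real.one_le_sqrt]
  nlinarith [sq_nonneg η]

theorem yy_pos (η : ℝ) : 0 < yy η := by linarith [yy_ge η]

theorem yy_sq (η : ℝ) : yy η ^ 2 = 1 + η ^ 2 := Real.sq_sqrt (by positivity)

theorem zz_nonneg (η : ℝ) : 0 ≤ zz η := by unfold zz; linarith [yy_ge η]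

theorem yy_cont : Continuous yy := by unfold yy; fun_prop
theorem zz_cont : Continuous zz := by unfold zz; exact yy_cont.sub continuous_const

theorem zz_mono {x y : ℝ} (hx : 0 ≤ x) (hxy : x ≤ y) : zz x ≤ zz y := by
  unfold zz yy
  have : Real.sqrt (1 + x ^ 2) ≤ Real.sqrt (1 + y ^ 2) := Real.sqrt_le_sqrt (by gcongr)
  linarith

/-- Laplace moments -/
noncomputable def Lap (ρ : ℝ → ℝ) (k : ℕ) (t : ℝ) : ℝ :=
  ∫ η in Ioi (0 : ℝ), zz η ^ k * Real.exp (-t * zz η) * ρ η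

theorem pow_exp_le {k : ℕ} {t z : ℝ} (ht : 0 < t) (hz : 0 ≤ z) :
    z ^ k * Real.exp (-t * z) ≤ k.factorial / t ^ k := by
  have h1 := Real.pow_div_factorial_le_exp (t * z) (by positivity) k
  rw [neg_mul, Real.exp_neg, ← div_eq_mul_inv, div_le_div_iff₀ (Real.exp_pos _) (by positivity)]
  rw [div_le_iff₀ (by positivity)] at h1
  calc z ^ k * t ^ k = (t * z) ^ k := by ring
    _ ≤ _ := h1
    _ = _ := by ring

theorem Lap_integrable {ρ : ℝ → ℝ} (hρ : IntegrableOn ρ (Ioi 0)) (k : ℕ) {t : ℝ} (ht : 0 < t) :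
    IntegrableOn (fun η => zz η ^ k * Real.exp (-t * zz η) * ρ η) (Ioi 0) := by
  have hc : Continuous fun η => zz η ^ k * Real.exp (-t * zz η) :=
    (zz_cont.pow k).mul (Real.continuous_exp.comp (continuous_const.mul zz_cont))
  refine Integrable.mono (hρ.const_mul (k.factorial / t ^ k))
    (hc.aestronglyMeasurable.mul hρ.aestronglyMeasurable) (Eventually.of_forall fun η => ?_)
  rw [norm_mul (zz η ^ k * Real.exp (-t * zz η)) (ρ η),
    norm_mul ((k.factorial : ℝ) / t ^ k) (ρ η)]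
  refine mul_le_mul_of_nonneg_right ?_ (norm_nonneg _)
  rw [Real.norm_eq_abs, Real.norm_eq_abs, abs_of_nonneg
    (mul_nonneg (pow_nonneg (zz_nonneg η) k) (Real.exp_pos _).le), abs_of_nonneg (by positivity)]
  exact pow_exp_le ht (zz_nonneg η)

theorem Lap_bound {ρ : ℝ → ℝ} (hρ : IntegrableOn ρ (Ioi 0)) (k : ℕ) {t : ℝ} (ht : 0 < t) :
    |Lap ρ k t| ≤ k.factorial / t ^ k * ∫ η in Ioi (0 : ℝ), |ρ η| := by
  unfold Lap
  rw [← integral_const_mul, ← Real.norm_eq_abs]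
  refine norm_integral_le_of_norm_le (hρ.abs.const_mul _) (Eventually.of_forall fun η => ?_)
  rw [norm_mul]
  refine mul_le_mul_of_nonneg_right ?_ (norm_nonneg _)
  rw [Real.norm_eq_abs, abs_of_nonneg
    (mul_nonneg (pow_nonneg (zz_nonneg η) k) (Real.exp_pos _).le)]
  exact pow_exp_le ht (zz_nonneg η)

theorem Lap_deriv {ρ : ℝ → ℝ} (hρ : IntegrableOn ρ (Ioi 0)) (k : ℕ) {t : ℝ} (ht : 0 < t) :
    HasDerivAt (Lap ρ k) (-Lap ρ (k + 1) t) t := by
  have hc : ∀ (j : ℕ) (s : ℝ), AEStronglyMeasurable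
      (fun η => zz η ^ j * Real.exp (-s * zz η) * ρ η) (volume.restrict (Ioi 0)) := fun j s =>
    (((zz_cont.pow j).mul (Real.continuous_exp.comp
      (continuous_const.mul zz_cont))).aestronglyMeasurable.mul hρ.aestronglyMeasurable)
  have h := hasDerivAt_integral_of_dominated_loc_of_deriv_le (𝕜 := ℝ)
    (μ := volume.restrict (Ioi (0 : ℝ)))
    (F := fun s η => zz η ^ k * Real.exp (-s * zz η) * ρ η)
    (F' := fun s η => -(zz η ^ (k + 1) * Real.exp (-s * zz η) * ρ η))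
    (x₀ := t) (s := Ioi (t / 2))
    (bound := fun η => ((k + 1).factorial / (t / 2) ^ (k + 1) : ℝ) * |ρ η|)
    (Ioi_mem_nhds (by linarith)) (Eventually.of_forall fun s => hc k s)
    (Lap_integrable hρ k ht) (hc (k + 1) t).neg
    (Eventually.of_forall fun η s hs => by
      have hs' : t / 2 < s := hs
      have ht2 : 0 < t / 2 := by linarith
      rw [norm_neg, norm_mul, Real.norm_eq_abs, Real.norm_eq_abs, abs_of_nonneg
        (mul_nonneg (pow_nonneg (zz_nonneg η) (k + 1)) (Real.exp_pos _).le)]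
      refine mul_le_mul_of_nonneg_right ?_ (abs_nonneg _)
      refine le_trans ?_ (pow_exp_le ht2 (zz_nonneg η))
      refine mul_le_mul_of_nonneg_left ?_ (pow_nonneg (zz_nonneg η) _)
      apply Real.exp_le_exp.2
      have := zz_nonneg η
      nlinarith)
    (hρ.abs.const_mul _)
    (Eventually.of_forall fun η s _ => by
      have h1 : HasDerivAt (fun s : ℝ => -s * zz η) (-1 * zz η) s :=
        ((hasDerivAt_id' s).neg).mul_const (zz η)
      have h2 := ((h1.exp).const_mul (zz η ^ k)).mul_const (ρ η)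
      refine h2.congr_deriv ?_
      ring)
  have h2 := h.2
  rw [integral_neg] at h2
  exact h2

/-- the weight -/
noncomputable def ww (η : ℝ) : ℝ := 4 * RR η / yy η
noncomputable def vv (η : ℝ) : ℝ := 4 * RR η

theorem vv_int : IntegrableOn vv (Ioi 0) := (RR_integrable.const_mul 4).integrableOn

theorem ww_int : IntegrableOn ww (Ioi 0) := by
  have hc : Continuous ww := by
    unfold ww
    exact (continuous_const.mul RR_cont).div yy_cont (fun η => (yy_pos η).ne')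
  refine Integrable.mono vv_int hc.aestronglyMeasurable (Eventually.of_forall fun η => ?_)
  unfold ww vv
  rw [norm_div]
  apply div_le_self (norm_nonneg _)
  rw [Real.norm_eq_abs, abs_of_pos (yy_pos η)]
  exact yy_ge η

noncomputable def z0 : ℝ := zz e0

theorem z0_gt : 3 / 5 < z0 := by
  unfold z0 zz yy
  rw [e0_sq]
  have : 8 / 5 < Real.sqrt (1 + 5 / 3) := by
    rw [Real.lt_sqrt (by norm_num)]; norm_num
  linarith

theorem z0_lt : z0 < 16 / 25 := by
  unfold z0 zz yy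
  rw [e0_sq]
  have : Real.sqrt (1 + 5 / 3) < 41 / 25 := by
    rw [Real.sqrt_lt' (by norm_num)]; norm_num
  linarith

theorem ww_nonneg {η : ℝ} (h0 : 0 ≤ η) (h1 : η ≤ e0) : 0 ≤ ww η :=
  div_nonneg (mul_nonneg (by norm_num) (RR_nonneg h0 h1)) (yy_pos η).le

theorem ww_nonpos {η : ℝ} (h1 : e0 ≤ η) : ww η ≤ 0 :=
  div_nonpos_of_nonpos_of_nonneg (by linarith [RR_nonpos h1]) (yy_pos η).le

/-- Chebyshev comparison -/
theorem cheb {k : ℕ} {c : ℝ} (hc0 : 0 ≤ c) (hk : k ≠ 0) (hc : c ≤ z0 ^ k)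
    (hmean : ∫ η in Ioc 0 e0, zz η ^ k ≤ c * e0) {t : ℝ} (ht : 0 < t) :
    Lap ww k t ≤ c * Lap ww 0 t := by
  -- the point where zz ^ k = c
  obtain ⟨a, ha, hac⟩ : ∃ a ∈ Icc 0 e0, zz a ^ k = c := by
    have := intermediate_value_Icc e0_pos.le ((zz_cont.pow k).continuousOn (s := Icc 0 e0))
    have h0 : zz 0 = 0 := by simp [zz, yy]
    have h1 : c ∈ Icc (zz 0 ^ k) (zz e0 ^ k) := by
      rw [h0, zero_pow hk]
      exact ⟨hc0, hc⟩
    obtain ⟨a, ha, hac⟩ := this h1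
    exact ⟨a, ha, hac⟩
  let W : ℝ → ℝ := fun η => Real.exp (-t * zz η) * ww η
  have hW : ∀ x y, 0 ≤ x → x ≤ y → y ≤ e0 → W y ≤ W x := by
    intro x y hx hxy hy
    have h1 := RR_anti hx hxy hy
    have h2 := RR_nonneg (hx.trans hxy) hy
    have h3 := zz_mono hx hxy
    have h4 : yy x ≤ yy y := by unfold zz at h3; linarith
    have h5 : ww y ≤ ww x := by
      unfold ww
      exact div_le_div₀ (by linarith) (by linarith) (yy_pos x) h4
    have h6 : 0 ≤ ww y := ww_nonneg (hx.trans hxy) hy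
    have h7 : Real.exp (-t * zz y) ≤ Real.exp (-t * zz x) :=
      Real.exp_le_exp.2 (by nlinarith)
    exact mul_le_mul h7 h5 h6 (Real.exp_pos _).le
  have hWa : 0 ≤ W a := mul_nonneg (Real.exp_pos _).le (ww_nonneg ha.1 ha.2)
  have hI : ∀ k, IntegrableOn (fun η => zz η ^ k * Real.exp (-t * zz η) * ww η) (Ioi 0) :=
    fun k => Lap_integrable ww_int k ht
  have hsub : c * Lap ww 0 t - Lap ww k t =
      ∫ η in Ioi (0 : ℝ), (c - zz η ^ k) * W η := by
    unfold Lap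
    rw [← integral_const_mul, ← integral_sub ((hI 0).const_mul c) (hI k)]
    refine integral_congr_ae (Eventually.of_forall fun η => ?_)
    simp only [W]
    ring
  have hint : IntegrableOn (fun η => (c - zz η ^ k) * W η) (Ioi 0) := by
    refine (((hI 0).const_mul c).sub (hI k)).congr (Eventually.of_forall fun η => ?_)
    simp only [W, Pi.sub_apply]
    ring
  have hcont : Continuous fun η => (c - zz η ^ k) * W a := by
    exact (continuous_const.sub (zz_cont.pow k)).mul continuous_const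
  have h1 : ∫ η in Ioc 0 e0, (c - zz η ^ k) * W a ≤
      ∫ η in Ioc 0 e0, (c - zz η ^ k) * W η := by
    refine setIntegral_mono_on (hcont.integrableOn_Ioc) (hint.mono_set Ioc_subset_Ioi_self)
      measurableSet_Ioc ?_
    intro η hη
    have hη0 : 0 ≤ η := hη.1.le
    rcases le_total η a with h | h
    · have h2 : zz η ^ k ≤ c := by
        rw [← hac]
        exact pow_le_pow_left₀ (zz_nonneg _) (zz_mono hη0 h) k
      have h3 := hW η a hη0 h ha.2
      exact mul_le_mul_of_nonneg_left h3 (by linarith)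
    · have h2 : c ≤ zz η ^ k := by
        rw [← hac]
        exact pow_le_pow_left₀ (zz_nonneg _) (zz_mono ha.1 h) k
      have h3 := hW a η ha.1 h hη.2
      exact mul_le_mul_of_nonpos_left h3 (by linarith)
  have h2 : 0 ≤ ∫ η in Ioc 0 e0, (c - zz η ^ k) * W a := by
    rw [integral_mul_const]
    refine mul_nonneg ?_ hWa
    have h7 : ∫ η in Ioc 0 e0, (c - zz η ^ k) =
        (∫ η in Ioc 0 e0, c) - ∫ η in Ioc 0 e0, zz η ^ k :=
      integral_sub (by simp) ((zz_cont.pow k).integrableOn_Ioc)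
    rw [h7]
    simp only [integral_const, MeasurableSet.univ, measureReal_restrict_apply, univ_inter,
      Real.volume_real_Ioc, sub_zero, smul_eq_mul]
    rw [max_eq_left e0_pos.le]
    linarith
  have h3 : 0 ≤ ∫ η in Ioi e0, (c - zz η ^ k) * W η := by
    refine setIntegral_nonneg measurableSet_Ioi fun η hη => ?_
    have hη' : e0 ≤ η := le_of_lt hη
    have h4 : c ≤ zz η ^ k :=
      hc.trans (pow_le_pow_left₀ (zz_nonneg _) (zz_mono e0_pos.le hη') k)
    have h5 : W η ≤ 0 := mul_nonpos_of_nonneg_of_nonpos (Real.exp_pos _).le (ww_nonpos hη')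
    exact mul_nonneg_of_nonpos_of_nonpos (by linarith) h5
  have h4 : ∫ η in Ioi (0 : ℝ), (c - zz η ^ k) * W η =
      (∫ η in Ioc 0 e0, (c - zz η ^ k) * W η) + ∫ η in Ioi e0, (c - zz η ^ k) * W η := by
    rw [← Ioc_union_Ioi_eq_Ioi e0_pos.le]
    exact setIntegral_union (Ioc_disjoint_Ioi le_rfl) measurableSet_Ioi
      (hint.mono_set Ioc_subset_Ioi_self) (hint.mono_set (Ioi_subset_Ioi e0_pos.le))
  linarith

theorem z_pt {η : ℝ} (h0 : 0 ≤ η) (h1 : η ≤ e0) : zz η ≤ η ^ 2 * (1 / 2 - 7 / 100 * η ^ 2) := by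
  have hs : η ^ 2 ≤ 5 / 3 := by rw [← e0_sq]; gcongr
  have hs0 : 0 ≤ η ^ 2 := by positivity
  unfold zz yy
  have : Real.sqrt (1 + η ^ 2) ≤ 1 + η ^ 2 * (1 / 2 - 7 / 100 * η ^ 2) := by
    apply Real.sqrt_le_iff.2
    constructor
    · nlinarith
    · set s := η ^ 2
      nlinarith [mul_nonneg hs0 (sub_nonneg.2 hs), mul_nonneg (mul_nonneg hs0 hs0)
        (sub_nonneg.2 hs), mul_nonneg (mul_nonneg (mul_nonneg hs0 hs0) hs0)
        (sub_nonneg.2 hs)]
  linarith

theorem mean_poly (n : ℕ) : ∫ η in Ioc 0 e0, η ^ n = e0 ^ (n + 1) / (n + 1) := by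
  rw [← intervalIntegral.integral_of_le e0_pos.le, integral_pow]
  simp

theorem q1_le {t : ℝ} (ht : 0 < t) : Lap ww 1 t ≤ 1 / 4 * Lap ww 0 t := by
  refine cheb (by norm_num) (by norm_num) (by have := z0_gt; rw [pow_one]; linarith) ?_ ht
  have h1 : ∫ η in Ioc 0 e0, zz η ^ 1 ≤ ∫ η in Ioc 0 e0, (1 / 2 * η ^ 2 - 7 / 100 * η ^ 4) := by
    refine setIntegral_mono_on ((zz_cont.pow 1).integrableOn_Ioc)
      (Continuous.integrableOn_Ioc (by fun_prop)) measurableSet_Ioc ?_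
    intro η hη
    have := z_pt hη.1.le hη.2
    rw [pow_one]
    linarith
  have h2 : ∫ η in Ioc 0 e0, (1 / 2 * η ^ 2 - 7 / 100 * η ^ 4) =
      1 / 2 * (e0 ^ 3 / 3) - 7 / 100 * (e0 ^ 5 / 5) := by
    rw [integral_sub (Continuous.integrableOn_Ioc (by fun_prop))
      (Continuous.integrableOn_Ioc (by fun_prop)), integral_const_mul, integral_const_mul,
      mean_poly, mean_poly]
    norm_num
  rw [h2] at h1
  refine h1.trans ?_
  have h3 := e0_sq
  have h4 := e0_pos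
  have e3 : e0 ^ 3 = 5 / 3 * e0 := by rw [← h3]; ring
  have e5 : e0 ^ 5 = 25 / 9 * e0 := by
    rw [show e0 ^ 5 = (e0 ^ 2) ^ 2 * e0 by ring, h3]; ring
  rw [e3, e5]
  linarith

theorem q2_le {t : ℝ} (ht : 0 < t) : Lap ww 2 t ≤ 1 / 10 * Lap ww 0 t := by
  refine cheb (by norm_num) (by norm_num) (by have := z0_gt; nlinarith) ?_ ht
  have h1 : ∫ η in Ioc 0 e0, zz η ^ 2 ≤ ∫ η in Ioc 0 e0, (1 / 4 * η ^ 4 - 3 / 50 * η ^ 6) := by
    refine setIntegral_mono_on ((zz_cont.pow 2).integrableOn_Ioc)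
      (Continuous.integrableOn_Ioc (by fun_prop)) measurableSet_Ioc ?_
    intro η hη
    have h := z_pt hη.1.le hη.2
    have hs : η ^ 2 ≤ 5 / 3 := by rw [← e0_sq]; have := hη.1.le; have := hη.2; gcongr
    have hs0 : 0 ≤ η ^ 2 := by positivity
    have h5 : zz η ^ 2 ≤ (η ^ 2 * (1 / 2 - 7 / 100 * η ^ 2)) ^ 2 :=
      pow_le_pow_left₀ (zz_nonneg _) h 2
    refine h5.trans ?_
    have h6 : 0 ≤ η ^ 6 * (1 / 100 - 49 / 10000 * η ^ 2) :=
      mul_nonneg (by positivity) (by linarith)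
    linarith
  have h2 : ∫ η in Ioc 0 e0, (1 / 4 * η ^ 4 - 3 / 50 * η ^ 6) =
      1 / 4 * (e0 ^ 5 / 5) - 3 / 50 * (e0 ^ 7 / 7) := by
    rw [integral_sub (Continuous.integrableOn_Ioc (by fun_prop))
      (Continuous.integrableOn_Ioc (by fun_prop)), integral_const_mul, integral_const_mul,
      mean_poly, mean_poly]
    norm_num
  rw [h2] at h1
  refine h1.trans ?_
  have h3 := e0_sq
  have h4 := e0_pos
  have e5 : e0 ^ 5 = 25 / 9 * e0 := by
    rw [show e0 ^ 5 = (e0 ^ 2) ^ 2 * e0 by ring, h3]; ring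
  have e7 : e0 ^ 7 = 125 / 27 * e0 := by
    rw [show e0 ^ 7 = (e0 ^ 2) ^ 3 * e0 by ring, h3]; ring
  rw [e5, e7]
  linarith

theorem q3_le {t : ℝ} (ht : 0 < t) : Lap ww 3 t ≤ 1 / 20 * Lap ww 0 t := by
  refine cheb (by norm_num) (by norm_num) ?_ ?_ ht
  · have h5 : ((3 : ℝ) / 5) ^ 3 ≤ z0 ^ 3 := pow_le_pow_left₀ (by norm_num) z0_gt.le 3
    refine le_trans ?_ h5
    norm_num
  have h1 : ∫ η in Ioc 0 e0, zz η ^ 3 ≤ ∫ η in Ioc 0 e0, (1 / 8 * η ^ 6 - 1 / 25 * η ^ 8) := by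
    refine setIntegral_mono_on ((zz_cont.pow 3).integrableOn_Ioc)
      (Continuous.integrableOn_Ioc (by fun_prop)) measurableSet_Ioc ?_
    intro η hη
    have h := z_pt hη.1.le hη.2
    have hs : η ^ 2 ≤ 5 / 3 := by rw [← e0_sq]; have := hη.1.le; have := hη.2; gcongr
    have hs0 : 0 ≤ η ^ 2 := by positivity
    have h5 : zz η ^ 3 ≤ (η ^ 2 * (1 / 2 - 7 / 100 * η ^ 2)) ^ 3 :=
      pow_le_pow_left₀ (zz_nonneg _) h 3
    refine h5.trans ?_
    have h6 : 0 ≤ η ^ 8 * (1 / 80 - 147 / 20000 * η ^ 2) :=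
      mul_nonneg (by positivity) (by linarith)
    have h7 : 0 ≤ 343 / 1000000 * η ^ 12 := by positivity
    linarith
  have h2 : ∫ η in Ioc 0 e0, (1 / 8 * η ^ 6 - 1 / 25 * η ^ 8) =
      1 / 8 * (e0 ^ 7 / 7) - 1 / 25 * (e0 ^ 9 / 9) := by
    rw [integral_sub (Continuous.integrableOn_Ioc (by fun_prop))
      (Continuous.integrableOn_Ioc (by fun_prop)), integral_const_mul, integral_const_mul,
      mean_poly, mean_poly]
    norm_num
  rw [h2] at h1
  refine h1.trans ?_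
  have h3 := e0_sq
  have h4 := e0_pos
  have e7 : e0 ^ 7 = 125 / 27 * e0 := by
    rw [show e0 ^ 7 = (e0 ^ 2) ^ 3 * e0 by ring, h3]; ring
  have e9 : e0 ^ 9 = 625 / 81 * e0 := by
    rw [show e0 ^ 9 = (e0 ^ 2) ^ 4 * e0 by ring, h3]; ring
  rw [e7, e9]
  linarith

end Pool.Agent.Q289.TS
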