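import Mathlib

open MeasureTheory Set Filter Topology

namespace Pool.Agent.Q289.TS

noncomputable def k1 (θ : ℝ) : ℝ := Real.sin θ - θ * Real.cos θ
noncomputable def k2 (θ : ℝ) : ℝ := 2 - 2 * Real.cos θ - θ * Real.sin θ
noncomputable def k3 (θ : ℝ) : ℝ := 2 * θ + θ * Real.cos θ - 3 * Real.sin θ

theorem k1_deriv (θ : ℝ) : HasDerivAt k1 (θ * Real.sin θ) θ := by
  have := (Real.hasDerivAt_sin θ).fun_sub ((hasDerivAt_id' θ).fun_mul (Real.hasDerivAt_cos θ))
  exact this.congr_deriv (by ring)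

theorem k2_deriv (θ : ℝ) : HasDerivAt k2 (k1 θ) θ := by
  have := (((Real.hasDerivAt_cos θ).const_mul (2 : ℝ)).const_sub (2 : ℝ)).fun_sub
    ((hasDerivAt_id' θ).fun_mul (Real.hasDerivAt_sin θ))
  exact this.congr_deriv (by unfold k1; ring)

theorem k3_deriv (θ : ℝ) : HasDerivAt k3 (k2 θ) θ := by
  have := (((hasDerivAt_id' θ).const_mul (2 : ℝ)).fun_add
    ((hasDerivAt_id' θ).fun_mul (Real.hasDerivAt_cos θ))).fun_sub
      ((Real.hasDerivAt_sin θ).const_mul (3 : ℝ))
  exact this.congr_deriv (by unfold k2; ring)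

theorem mono_of {f f' : ℝ → ℝ} {b : ℝ} (h : ∀ x, HasDerivAt f (f' x) x)
    (hf : ∀ x, 0 < x → x < b → 0 ≤ f' x) (h0 : f 0 = 0) {x : ℝ} (hx : 0 ≤ x) (hb : x ≤ b) :
    0 ≤ f x := by
  have hm : MonotoneOn f (Icc 0 b) := by
    apply monotoneOn_of_deriv_nonneg (convex_Icc 0 b)
      (fun y _ => (h y).continuousAt.continuousWithinAt)
      (fun y _ => (h y).differentiableAt.differentiableWithinAt)
    intro y hy
    rw [interior_Icc] at hy
    rw [(h y).deriv]
    exact hf y hy.1 hy.2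
  have := hm (left_mem_Icc.2 (hx.trans hb)) ⟨hx, hb⟩ hx
  rwa [h0] at this

theorem k3_nonneg {θ : ℝ} (h : 0 ≤ θ) : 0 ≤ k3 θ := by
  rcases le_or_gt θ Real.pi with h1 | h1
  · have a1 : ∀ x, 0 ≤ x → x ≤ Real.pi → 0 ≤ k1 x := fun x hx hb =>
      mono_of k1_deriv (fun y hy hb => mul_nonneg hy.le
        (Real.sin_nonneg_of_nonneg_of_le_pi hy.le hb.le)) (by simp [k1]) hx hb
    have a2 : ∀ x, 0 ≤ x → x ≤ Real.pi → 0 ≤ k2 x := fun x hx hb =>
      mono_of k2_deriv (fun y hy hb => a1 y hy.le hb.le) (by simp [k2]) hx hb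
    exact mono_of k3_deriv (fun y hy hb => a2 y hy.le hb.le) (by simp [k3]) h h1
  · unfold k3
    have h2 := Real.pi_gt_three
    have h3 := Real.neg_one_le_cos θ
    have h4 := Real.sin_le_one θ
    nlinarith

theorem abs_of_deriv {f f' g g' : ℝ → ℝ} (h : ∀ x, HasDerivAt f (f' x) x)
    (hg : ∀ x, HasDerivAt g (g' x) x) (h0 : f 0 = 0) (hg0 : g 0 = 0)
    (hf : ∀ x, 0 < x → |f' x| ≤ g' x) {x : ℝ} (hx : 0 ≤ x) : |f x| ≤ g x := by
  rw [abs_le]
  constructor
  · have := mono_of (f := fun x => f x + g x) (fun y => (h y).add (hg y)) (b := x)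
      (fun y hy _ => by have := (abs_le.1 (hf y hy)).1; linarith) (by simp [h0, hg0]) hx le_rfl
    linarith
  · have := mono_of (f := fun x => g x - f x) (fun y => (hg y).sub (h y)) (b := x)
      (fun y hy _ => by have := (abs_le.1 (hf y hy)).2; linarith) (by simp [h0, hg0]) hx le_rfl
    linarith

theorem k1_bound {θ : ℝ} (h : 0 ≤ θ) : |k1 θ| ≤ θ ^ 3 := by
  refine abs_of_deriv k1_deriv (g := fun x => x ^ 3) (g' := fun x => 3 * x ^ 2)
    (fun x => by simpa using hasDerivAt_pow 3 x) (by simp [k1]) (by simp) ?_ h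
  intro x hx
  rw [abs_mul, abs_of_pos hx]
  have h1 : |Real.sin x| ≤ x := by
    have := Real.abs_sin_le_abs (x := x)
    rwa [abs_of_pos hx] at this
  nlinarith

theorem k2_bound {θ : ℝ} (h : 0 ≤ θ) : |k2 θ| ≤ θ ^ 4 := by
  refine abs_of_deriv k2_deriv (g := fun x => x ^ 4) (g' := fun x => 4 * x ^ 3)
    (fun x => by simpa using hasDerivAt_pow 4 x) (by simp [k2]) (by simp) ?_ h
  intro x hx
  have := k1_bound hx.le
  have h3 : 0 ≤ x ^ 3 := by positivity
  linarith

theorem k3_bound {θ : ℝ} (h : 0 ≤ θ) : |k3 θ| ≤ θ ^ 5 := by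
  refine abs_of_deriv k3_deriv (g := fun x => x ^ 5) (g' := fun x => 5 * x ^ 4)
    (fun x => by simpa using hasDerivAt_pow 5 x) (by simp [k3]) (by simp) ?_ h
  intro x hx
  have := k2_bound hx.le
  have h3 : 0 ≤ x ^ 4 := by positivity
  linarith

theorem step_bound {f f1 f2 : ℝ → ℝ} (h1 : ∀ t, 0 < t → HasDerivAt f (f1 t) t)
    (h2 : ∀ t, 0 < t → HasDerivAt f1 (f2 t) t) (s0 : ∀ t, 0 < t → 0 ≤ f t)
    (s2 : ∀ t, 0 < t → 0 ≤ f2 t) {t : ℝ} (ht : 0 < t) : -f1 t * t ≤ 2 * f (t / 2) := by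
  have hlt : t / 2 < t := by linarith
  have ht2 : 0 < t / 2 := by linarith
  obtain ⟨c, hc, hcc⟩ := exists_hasDerivAt_eq_slope f f1 hlt
    (fun y hy => (h1 y (ht2.trans_le hy.1)).continuousAt.continuousWithinAt)
    (fun y hy => h1 y (ht2.trans hy.1))
  have hm : MonotoneOn f1 (Icc (t / 2) t) := by
    apply monotoneOn_of_deriv_nonneg (convex_Icc _ _)
      (fun y hy => (h2 y (ht2.trans_le hy.1)).continuousAt.continuousWithinAt)
      (fun y hy => by
        rw [interior_Icc] at hy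
        exact (h2 y (ht2.trans hy.1)).differentiableAt.differentiableWithinAt)
    intro y hy
    rw [interior_Icc] at hy
    rw [(h2 y (ht2.trans hy.1)).deriv]
    exact s2 y (ht2.trans hy.1)
  have h3 : f1 c ≤ f1 t := hm ⟨hc.1.le, hc.2.le⟩ (right_mem_Icc.2 hlt.le) hc.2.le
  have h4 : f1 c * (t / 2) = f t - f (t / 2) := by
    rw [hcc]
    field_simp
    ring
  have h5 := s0 t ht
  nlinarith

theorem cos_pos {φ η η1 η2 η3 : ℝ → ℝ} {C : ℝ} (hφc : ContinuousOn φ (Ici 0))
    (hφ : ∀ t, 0 < t → HasDerivAt φ (-(t * η t)) t)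
    (h1 : ∀ t, 0 < t → HasDerivAt η (η1 t) t) (h2 : ∀ t, 0 < t → HasDerivAt η1 (η2 t) t)
    (h3 : ∀ t, 0 < t → HasDerivAt η2 (η3 t) t) (s0 : ∀ t, 0 < t → 0 ≤ η t)
    (s1 : ∀ t, 0 < t → η1 t ≤ 0) (s2 : ∀ t, 0 < t → 0 ≤ η2 t) (s3 : ∀ t, 0 < t → η3 t ≤ 0)
    (hb : ∀ t, 0 < t → t * η t ≤ C) (hlim : Tendsto (fun t => t * η t) atTop (𝓝 0))
    (hφlim : Tendsto φ atTop (𝓝 0)) (hφi : IntegrableOn φ (Ioi 0)) {x : ℝ} (hx : 0 < x) :
    0 ≤ ∫ t in Ioi (0 : ℝ), Real.cos (x * t) * φ t := by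
  -- bounds for the derivatives
  have b1 : ∀ t, 0 < t → |η1 t| * t ^ 2 ≤ 4 * (t / 2 * η (t / 2)) := by
    intro t ht
    have := step_bound h1 h2 s0 s2 ht
    rw [abs_of_nonpos (s1 t ht)]
    nlinarith
  have b2 : ∀ t, 0 < t → |η2 t| * t ^ 3 ≤ 32 * (t / 4 * η (t / 4)) := by
    intro t ht
    have h5 := step_bound (f := fun t => -η1 t) (f1 := fun t => -η2 t) (f2 := fun t => -η3 t)
      (fun y hy => (h2 y hy).fun_neg) (fun y hy => (h3 y hy).fun_neg)
      (fun y hy => by have := s1 y hy; linarith) (fun y hy => by have := s3 y hy; linarith) ht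
    have ht2 : 0 < t / 2 := by linarith
    have h6 := step_bound h1 h2 s0 s2 ht2
    rw [abs_of_nonneg (s2 t ht)]
    rw [show t / 2 / 2 = t / 4 by ring] at h6
    simp only [neg_neg] at h5
    have h7 : η2 t * t * t ^ 2 ≤ 2 * -η1 (t / 2) * t ^ 2 := by
      have : 0 ≤ t ^ 2 := by positivity
      nlinarith
    have h8 : -η1 (t / 2) * (t / 2) * t ≤ 2 * η (t / 4) * t := by nlinarith
    nlinarith
  let Br : ℝ → ℝ := fun T => Real.sin (x * T) / x * φ T +
    (1 / x) * (η T * (k1 (x * T) / x ^ 2) - η1 T * (k2 (x * T) / x ^ 3) +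
      η2 T * (k3 (x * T) / x ^ 4))
  have hBr0 : Br 0 = 0 := by simp [Br, k1, k2, k3]
  have hx0 : x ≠ 0 := hx.ne'
  have hder : ∀ T, 0 < T → HasDerivAt Br (Real.cos (x * T) * φ T +
      (1 / x) * (η3 T * (k3 (x * T) / x ^ 4))) T := by
    intro T hT
    have e0 : HasDerivAt (fun T : ℝ => x * T) x T := by
      simpa using (hasDerivAt_id T).const_mul x
    have e1 : HasDerivAt (fun T => k1 (x * T) / x ^ 2) (x * T * Real.sin (x * T) * x / x ^ 2) T :=
      ((k1_deriv (x * T)).comp T e0).div_const _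
    have e2 : HasDerivAt (fun T => k2 (x * T) / x ^ 3) (k1 (x * T) * x / x ^ 3) T :=
      ((k2_deriv (x * T)).comp T e0).div_const _
    have e3 : HasDerivAt (fun T => k3 (x * T) / x ^ 4) (k2 (x * T) * x / x ^ 4) T :=
      ((k3_deriv (x * T)).comp T e0).div_const _
    have e4 : HasDerivAt (fun T => Real.sin (x * T) / x) (Real.cos (x * T) * x / x) T :=
      ((Real.hasDerivAt_sin (x * T)).comp T e0).div_const _
    have e5 := (e4.fun_mul (hφ T hT)).fun_add (((((h1 T hT).fun_mul e1).fun_sub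
      ((h2 T hT).fun_mul e2)).fun_add ((h3 T hT).fun_mul e3)).const_mul (1 / x))
    refine e5.congr_deriv ?_
    field_simp
    ring
  have hBrbd : ∀ T, 0 < T → |Br T| ≤ T * |φ T| + 37 * C * T ^ 2 := by
    intro T hT
    have hxT : 0 < x * T := mul_pos hx hT
    have c0 : |Real.sin (x * T) / x| ≤ T := by
      rw [abs_div, abs_of_pos hx, div_le_iff₀ hx]
      have := Real.abs_sin_le_abs (x := x * T)
      rw [abs_of_pos hxT] at this
      linarith
    have c1 : |k1 (x * T) / x ^ 2| ≤ x * T ^ 3 := by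
      rw [abs_div, abs_of_pos (by positivity : 0 < x ^ 2), div_le_iff₀ (by positivity)]
      have := k1_bound hxT.le
      calc _ ≤ _ := this
        _ = _ := by ring
    have c2 : |k2 (x * T) / x ^ 3| ≤ x * T ^ 4 := by
      rw [abs_div, abs_of_pos (by positivity : 0 < x ^ 3), div_le_iff₀ (by positivity)]
      have := k2_bound hxT.le
      calc _ ≤ _ := this
        _ = _ := by ring
    have c3 : |k3 (x * T) / x ^ 4| ≤ x * T ^ 5 := by
      rw [abs_div, abs_of_pos (by positivity : 0 < x ^ 4), div_le_iff₀ (by positivity)]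
      have := k3_bound hxT.le
      calc _ ≤ _ := this
        _ = _ := by ring
    have d1 : |η T * (k1 (x * T) / x ^ 2)| ≤ x * (C * T ^ 2) := by
      rw [abs_mul, abs_of_nonneg (s0 T hT)]
      calc η T * |k1 (x * T) / x ^ 2| ≤ η T * (x * T ^ 3) :=
            mul_le_mul_of_nonneg_left c1 (s0 T hT)
        _ = x * T ^ 2 * (T * η T) := by ring
        _ ≤ x * T ^ 2 * C := mul_le_mul_of_nonneg_left (hb T hT) (by positivity)
        _ = _ := by ring
    have d2 : |η1 T * (k2 (x * T) / x ^ 3)| ≤ x * (4 * C * T ^ 2) := by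
      rw [abs_mul]
      calc |η1 T| * |k2 (x * T) / x ^ 3| ≤ |η1 T| * (x * T ^ 4) :=
            mul_le_mul_of_nonneg_left c2 (abs_nonneg _)
        _ = x * T ^ 2 * (|η1 T| * T ^ 2) := by ring
        _ ≤ x * T ^ 2 * (4 * C) := mul_le_mul_of_nonneg_left
            ((b1 T hT).trans (by have := hb (T / 2) (by linarith); linarith)) (by positivity)
        _ = _ := by ring
    have d3 : |η2 T * (k3 (x * T) / x ^ 4)| ≤ x * (32 * C * T ^ 2) := by
      rw [abs_mul]
      calc |η2 T| * |k3 (x * T) / x ^ 4| ≤ |η2 T| * (x * T ^ 5) :=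
            mul_le_mul_of_nonneg_left c3 (abs_nonneg _)
        _ = x * T ^ 2 * (|η2 T| * T ^ 3) := by ring
        _ ≤ x * T ^ 2 * (32 * C) := mul_le_mul_of_nonneg_left
            ((b2 T hT).trans (by have := hb (T / 4) (by linarith); linarith)) (by positivity)
        _ = _ := by ring
    have d0 : |Real.sin (x * T) / x * φ T| ≤ T * |φ T| := by
      rw [abs_mul]
      exact mul_le_mul_of_nonneg_right c0 (abs_nonneg _)
    have d4 : |(1 / x) * (η T * (k1 (x * T) / x ^ 2) - η1 T * (k2 (x * T) / x ^ 3) +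
        η2 T * (k3 (x * T) / x ^ 4))| ≤ 37 * C * T ^ 2 := by
      rw [abs_mul, abs_of_pos (by positivity : 0 < 1 / x)]
      have d5 : |η T * (k1 (x * T) / x ^ 2) - η1 T * (k2 (x * T) / x ^ 3) +
        η2 T * (k3 (x * T) / x ^ 4)| ≤ x * (37 * C * T ^ 2) := by
        refine (abs_add_le _ _).trans ?_
        have := abs_sub (η T * (k1 (x * T) / x ^ 2)) (η1 T * (k2 (x * T) / x ^ 3))
        linarith
      calc 1 / x * _ ≤ 1 / x * (x * (37 * C * T ^ 2)) :=
            mul_le_mul_of_nonneg_left d5 (by positivity)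
        _ = _ := by field_simp
    exact (abs_add_le _ _).trans (add_le_add d0 d4)
  have hcont : ∀ T, 0 < T → ContinuousOn Br (Icc 0 T) := by
    intro T hT t ht
    rcases eq_or_lt_of_le ht.1 with h | h
    · subst h
      have hφ0 : Tendsto (fun t => t * |φ t| + 37 * C * t ^ 2) (𝓝[Icc 0 T] 0)
          (𝓝 (0 * |φ 0| + 37 * C * 0 ^ 2)) := by
        have : ContinuousWithinAt φ (Icc 0 T) 0 :=
          (hφc 0 (mem_Ici.2 le_rfl)).mono (fun y hy => hy.1)
        have h4 : ContinuousWithinAt (fun t => t * |φ t| + 37 * C * t ^ 2) (Icc 0 T) 0 :=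
          (continuousWithinAt_id.mul this.abs).add (by fun_prop)
        exact h4
      simp only [zero_mul, ne_eq, OfNat.ofNat_ne_zero, not_false_eq_true, zero_pow, mul_zero,
        add_zero] at hφ0
      unfold ContinuousWithinAt
      rw [hBr0]
      refine squeeze_zero_norm' ?_ hφ0
      filter_upwards [self_mem_nhdsWithin] with y hy
      rcases eq_or_lt_of_le hy.1 with h | h
      · rw [← h, hBr0]; simp
      · exact hBrbd y h
    · exact (hder t h).continuousAt.continuousWithinAt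
  have hint : IntegrableOn (fun t => Real.cos (x * t) * φ t) (Ioi 0) := by
    refine Integrable.mono hφi ?_ (Eventually.of_forall fun t => ?_)
    · exact (by fun_prop : Continuous fun t => Real.cos (x * t)).aestronglyMeasurable.mul
        hφi.aestronglyMeasurable
    · rw [norm_mul]
      exact mul_le_of_le_one_left (norm_nonneg _) (Real.abs_cos_le_one _)
  have hkey : ∀ T, 0 < T → Br T ≤ ∫ t in (0 : ℝ)..T, Real.cos (x * t) * φ t := by
    intro T hT
    have := intervalIntegral.sub_le_integral_of_hasDeriv_right_of_le (g := Br)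
      (g' := fun T => Real.cos (x * T) * φ T + (1 / x) * (η3 T * (k3 (x * T) / x ^ 4)))
      (φ := fun t => Real.cos (x * t) * φ t) hT.le (hcont T hT)
      (fun y hy => (hder y hy.1).hasDerivWithinAt)
      (by
        rw [integrableOn_Icc_iff_integrableOn_Ioc]
        exact hint.mono_set Ioc_subset_Ioi_self)
      (fun y hy => by
        have q1 := k3_nonneg (mul_pos hx hy.1).le
        have q2 := s3 y hy.1
        have q3 : η3 y * (k3 (x * y) / x ^ 4) ≤ 0 :=
          mul_nonpos_of_nonpos_of_nonneg q2 (by positivity)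
        have q4 : 1 / x * (η3 y * (k3 (x * y) / x ^ 4)) ≤ 0 :=
          mul_nonpos_of_nonneg_of_nonpos (by positivity) q3
        linarith)
    rwa [hBr0, sub_zero] at this
  -- the limit at infinity
  have hBrlim : Tendsto Br atTop (𝓝 0) := by
    have g1 : Tendsto (fun T => 1 / x * |φ T| + (4 + 3 * x) * (1 / x) * ((1 / x ^ 2) * (T * η T) +
        (1 / x ^ 3) * (4 * (T / 2 * η (T / 2))) + (1 / x ^ 4) * (32 * (T / 4 * η (T / 4)))))
        atTop (𝓝 (1 / x * |0| + (4 + 3 * x) * (1 / x) * ((1 / x ^ 2) * 0 + (1 / x ^ 3) * (4 * 0) +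
          (1 / x ^ 4) * (32 * 0)))) := by
      have t2 : Tendsto (fun T : ℝ => T / 2) atTop atTop :=
        tendsto_id.atTop_div_const (by norm_num)
      have t4 : Tendsto (fun T : ℝ => T / 4) atTop atTop :=
        tendsto_id.atTop_div_const (by norm_num)
      exact (hφlim.abs.const_mul _).add (((((hlim).const_mul _).add
        (((hlim.comp t2).const_mul _).const_mul _)).add
          (((hlim.comp t4).const_mul _).const_mul _)).const_mul _)
    simp only [abs_zero, mul_zero, add_zero] at g1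
    refine squeeze_zero_norm' ?_ g1
    filter_upwards [eventually_ge_atTop (1 : ℝ)] with T hT
    have hT0 : 0 < T := by linarith
    have hxT : 0 < x * T := mul_pos hx hT0
    have hs := Real.abs_sin_le_one (x * T)
    have hc := Real.abs_cos_le_one (x * T)
    rw [abs_le] at hs hc
    have m1 : |k1 (x * T)| ≤ (4 + 3 * x) * T := by
      rw [abs_le]; unfold k1; constructor <;> nlinarith
    have m2 : |k2 (x * T)| ≤ (4 + 3 * x) * T := by
      rw [abs_le]; unfold k2; constructor <;> nlinarith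
    have m3 : |k3 (x * T)| ≤ (4 + 3 * x) * T := by
      rw [abs_le]; unfold k3; constructor <;> nlinarith
    have hMpos : 0 < 4 + 3 * x := by linarith
    have d0 : |Real.sin (x * T) / x * φ T| ≤ 1 / x * |φ T| := by
      rw [abs_mul]
      refine mul_le_mul_of_nonneg_right ?_ (abs_nonneg _)
      rw [abs_div, abs_of_pos hx]
      exact div_le_div_of_nonneg_right (abs_le.2 hs) hx.le
    have d1 : |η T * (k1 (x * T) / x ^ 2)| ≤ (4 + 3 * x) * ((1 / x ^ 2) * (T * η T)) := by
      rw [abs_mul, abs_of_nonneg (s0 T hT0), abs_div, abs_of_pos (by positivity : 0 < x ^ 2)]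
      calc η T * (|k1 (x * T)| / x ^ 2) ≤ η T * (((4 + 3 * x) * T) / x ^ 2) :=
            mul_le_mul_of_nonneg_left (div_le_div_of_nonneg_right m1 (by positivity)) (s0 T hT0)
        _ = _ := by ring
    have d2 : |η1 T * (k2 (x * T) / x ^ 3)| ≤
        (4 + 3 * x) * ((1 / x ^ 3) * (4 * (T / 2 * η (T / 2)))) := by
      rw [abs_mul, abs_div, abs_of_pos (by positivity : 0 < x ^ 3)]
      calc |η1 T| * (|k2 (x * T)| / x ^ 3) ≤ |η1 T| * (((4 + 3 * x) * T) / x ^ 3) :=
            mul_le_mul_of_nonneg_left (div_le_div_of_nonneg_right m2 (by positivity))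
              (abs_nonneg _)
        _ = (4 + 3 * x) * ((1 / x ^ 3) * (|η1 T| * (T * 1))) := by ring
        _ ≤ (4 + 3 * x) * ((1 / x ^ 3) * (|η1 T| * (T * T))) := by gcongr
        _ = (4 + 3 * x) * ((1 / x ^ 3) * (|η1 T| * T ^ 2)) := by ring
        _ ≤ _ := mul_le_mul_of_nonneg_left
            (mul_le_mul_of_nonneg_left (b1 T hT0) (by positivity)) hMpos.le
    have d3 : |η2 T * (k3 (x * T) / x ^ 4)| ≤
        (4 + 3 * x) * ((1 / x ^ 4) * (32 * (T / 4 * η (T / 4)))) := by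
      rw [abs_mul, abs_div, abs_of_pos (by positivity : 0 < x ^ 4)]
      calc |η2 T| * (|k3 (x * T)| / x ^ 4) ≤ |η2 T| * (((4 + 3 * x) * T) / x ^ 4) :=
            mul_le_mul_of_nonneg_left (div_le_div_of_nonneg_right m3 (by positivity))
              (abs_nonneg _)
        _ = (4 + 3 * x) * ((1 / x ^ 4) * (|η2 T| * (T * 1 ^ 2))) := by ring
        _ ≤ (4 + 3 * x) * ((1 / x ^ 4) * (|η2 T| * (T * T ^ 2))) := by gcongr
        _ = (4 + 3 * x) * ((1 / x ^ 4) * (|η2 T| * T ^ 3)) := by ring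
        _ ≤ _ := mul_le_mul_of_nonneg_left
            (mul_le_mul_of_nonneg_left (b2 T hT0) (by positivity)) hMpos.le
    have d4 : |(1 / x) * (η T * (k1 (x * T) / x ^ 2) - η1 T * (k2 (x * T) / x ^ 3) +
        η2 T * (k3 (x * T) / x ^ 4))| ≤ (4 + 3 * x) * (1 / x) * ((1 / x ^ 2) * (T * η T) +
        (1 / x ^ 3) * (4 * (T / 2 * η (T / 2))) + (1 / x ^ 4) * (32 * (T / 4 * η (T / 4)))) := by
      rw [abs_mul, abs_of_pos (by positivity : 0 < 1 / x)]
      have d5 : |η T * (k1 (x * T) / x ^ 2) - η1 T * (k2 (x * T) / x ^ 3) +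
        η2 T * (k3 (x * T) / x ^ 4)| ≤ (4 + 3 * x) * ((1 / x ^ 2) * (T * η T)) +
          (4 + 3 * x) * ((1 / x ^ 3) * (4 * (T / 2 * η (T / 2)))) +
          (4 + 3 * x) * ((1 / x ^ 4) * (32 * (T / 4 * η (T / 4)))) := by
        refine (abs_add_le _ _).trans ?_
        have := abs_sub (η T * (k1 (x * T) / x ^ 2)) (η1 T * (k2 (x * T) / x ^ 3))
        linarith
      calc 1 / x * _ ≤ 1 / x * _ :=
            mul_le_mul_of_nonneg_left d5 (by positivity)
        _ = _ := by ring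
    exact (abs_add_le _ _).trans (add_le_add d0 d4)
  have hIlim : Tendsto (fun T => ∫ t in (0 : ℝ)..T, Real.cos (x * t) * φ t) atTop
      (𝓝 (∫ t in Ioi (0 : ℝ), Real.cos (x * t) * φ t)) :=
    intervalIntegral_tendsto_integral_Ioi 0 hint tendsto_id
  refine le_of_tendsto_of_tendsto hBrlim hIlim ?_
  filter_upwards [eventually_gt_atTop (0 : ℝ)] with T hT
  exact hkey T hT

end Pool.Agent.Q289.TS
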