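import Pool.Agent.Q289.TS.Mono
import Pool.Agent.Q289.TS.Pos

open MeasureTheory Set Filter Topology

namespace Pool.Agent.Q289.TS

theorem q0_ge (hw : ∫ η in Ioi (0 : ℝ), ww η = 1) {t : ℝ} (ht : 0 < t) :
    Real.exp (-t * z0) ≤ Lap ww 0 t := by
  have h1 : Lap ww 0 t - Real.exp (-t * z0) =
      ∫ η in Ioi (0 : ℝ), (Real.exp (-t * zz η) - Real.exp (-t * z0)) * ww η := by
    have h2 : ∫ η in Ioi (0 : ℝ), (Real.exp (-t * zz η) - Real.exp (-t * z0)) * ww η =
        (∫ η in Ioi (0 : ℝ), zz η ^ 0 * Real.exp (-t * zz η) * ww η) -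
          ∫ η in Ioi (0 : ℝ), Real.exp (-t * z0) * ww η := by
      rw [← integral_sub (Lap_integrable ww_int 0 ht) (ww_int.const_mul _)]
      refine integral_congr_ae (Eventually.of_forall fun η => ?_)
      simp only
      ring
    rw [h2, integral_const_mul, hw, mul_one]
    rfl
  have h2 : 0 ≤ ∫ η in Ioi (0 : ℝ), (Real.exp (-t * zz η) - Real.exp (-t * z0)) * ww η := by
    refine setIntegral_nonneg measurableSet_Ioi fun η hη => ?_
    have hη0 : 0 ≤ η := le_of_lt hη
    rcases le_total η e0 with h | h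
    · refine mul_nonneg (sub_nonneg.2 (Real.exp_le_exp.2 ?_)) (ww_nonneg hη0 h)
      have := zz_mono hη0 h
      unfold z0
      nlinarith
    · refine mul_nonneg_of_nonpos_of_nonpos (sub_nonpos.2 (Real.exp_le_exp.2 ?_)) (ww_nonpos h)
      have := zz_mono e0_pos.le h
      unfold z0
      nlinarith
  linarith

theorem vv_total : ∫ η in Ioi (0 : ℝ), vv η = 0 := by
  unfold vv
  rw [integral_const_mul, RR_total, mul_zero]

theorem anti_pos {K : ℝ → ℝ} (hK : AntitoneOn K (Ici 0))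
    (hi : IntegrableOn (fun η => K (zz η) * vv η) (Ioi 0)) :
    0 ≤ ∫ η in Ioi (0 : ℝ), K (zz η) * vv η := by
  have h1 : ∫ η in Ioi (0 : ℝ), K (zz η) * vv η =
      ∫ η in Ioi (0 : ℝ), (K (zz η) - K z0) * vv η := by
    have : ∫ η in Ioi (0 : ℝ), (K (zz η) - K z0) * vv η =
        (∫ η in Ioi (0 : ℝ), K (zz η) * vv η) - ∫ η in Ioi (0 : ℝ), K z0 * vv η := by
      rw [← integral_sub hi (vv_int.const_mul _)]
      refine integral_congr_ae (Eventually.of_forall fun η => ?_)
      simp only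
      ring
    rw [this, integral_const_mul, vv_total, mul_zero, sub_zero]
  rw [h1]
  refine setIntegral_nonneg measurableSet_Ioi fun η hη => ?_
  have hη0 : 0 ≤ η := le_of_lt hη
  unfold vv
  rcases le_total η e0 with h | h
  · refine mul_nonneg (sub_nonneg.2 ?_) (by linarith [RR_nonneg hη0 h])
    exact hK (mem_Ici.2 (zz_nonneg _)) (mem_Ici.2 (zz_nonneg _)) (zz_mono hη0 h)
  · refine mul_nonneg_of_nonpos_of_nonpos (sub_nonpos.2 ?_) (by linarith [RR_nonpos h])
    exact hK (mem_Ici.2 (zz_nonneg _)) (mem_Ici.2 (zz_nonneg _)) (zz_mono e0_pos.le h)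

theorem anti_of {K K' : ℝ → ℝ} (h : ∀ z, HasDerivAt K (K' z) z) (hn : ∀ z, 0 ≤ z → K' z ≤ 0) :
    AntitoneOn K (Ici 0) := by
  apply antitoneOn_of_deriv_nonpos (convex_Ici 0)
    (fun y _ => (h y).continuousAt.continuousWithinAt)
    (fun y _ => (h y).differentiableAt.differentiableWithinAt)
  intro y hy
  rw [interior_Ici] at hy
  rw [(h y).deriv]
  exact hn y (le_of_lt hy)

noncomputable def B0 (t : ℝ) : ℝ := Lap vv 0 t / t
noncomputable def B1 (t : ℝ) : ℝ := -(Lap vv 1 t / t + Lap vv 0 t / t ^ 2)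
noncomputable def B2 (t : ℝ) : ℝ :=
  Lap vv 2 t / t + 2 * Lap vv 1 t / t ^ 2 + 2 * Lap vv 0 t / t ^ 3
noncomputable def B3 (t : ℝ) : ℝ :=
  -(Lap vv 3 t / t + 3 * Lap vv 2 t / t ^ 2 + 6 * Lap vv 1 t / t ^ 3 + 6 * Lap vv 0 t / t ^ 4)

theorem B0_deriv {t : ℝ} (ht : 0 < t) : HasDerivAt B0 (B1 t) t := by
  have h0 := Lap_deriv vv_int 0 ht
  have h := h0.fun_div (hasDerivAt_id' t) ht.ne'
  refine h.congr_deriv ?_
  unfold B1
  simp only [zero_add]
  field_simp
  ring

theorem B1_deriv {t : ℝ} (ht : 0 < t) : HasDerivAt B1 (B2 t) t := by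
  have h0 := Lap_deriv vv_int 0 ht
  have h1 := Lap_deriv vv_int 1 ht
  have h := ((h1.fun_div (hasDerivAt_id' t) ht.ne').fun_add
    (h0.fun_div (hasDerivAt_pow 2 t) (by positivity))).fun_neg
  refine h.congr_deriv ?_
  unfold B2
  simp only [zero_add, Nat.reduceAdd]
  field_simp
  push_cast
  ring

theorem B2_deriv {t : ℝ} (ht : 0 < t) : HasDerivAt B2 (B3 t) t := by
  have h0 := Lap_deriv vv_int 0 ht
  have h1 := Lap_deriv vv_int 1 ht
  have h2 := Lap_deriv vv_int 2 ht
  have h := ((h2.fun_div (hasDerivAt_id' t) ht.ne').fun_add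
    ((h1.const_mul 2).fun_div (hasDerivAt_pow 2 t) (by positivity))).fun_add
    ((h0.const_mul 2).fun_div (hasDerivAt_pow 3 t) (by positivity))
  refine h.congr_deriv ?_
  unfold B3
  simp only [zero_add, Nat.reduceAdd]
  field_simp
  push_cast
  ring

theorem exp_der (t z : ℝ) : HasDerivAt (fun z : ℝ => Real.exp (-t * z)) (-t * Real.exp (-t * z)) z := by
  have h := ((hasDerivAt_id' z).const_mul (-t)).exp
  refine h.congr_deriv ?_
  ring

theorem B0_nonneg {t : ℝ} (ht : 0 < t) : 0 ≤ B0 t := by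
  have hK : AntitoneOn (fun z : ℝ => Real.exp (-t * z) * (1 / t)) (Ici 0) := by
    refine anti_of (K' := fun z => -Real.exp (-t * z)) (fun z => ?_)
      (fun z _ => by linarith [Real.exp_pos (-t * z)])
    refine ((exp_der t z).mul_const (1 / t)).congr_deriv ?_
    field_simp
  have hi : IntegrableOn (fun η => (Real.exp (-t * zz η) * (1 / t)) * vv η) (Ioi 0) := by
    refine ((Lap_integrable vv_int 0 ht).const_mul (1 / t)).congr (Eventually.of_forall fun η => ?_)
    simp only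
    ring
  have h := anti_pos hK hi
  have h2 : ∫ η in Ioi (0 : ℝ), (Real.exp (-t * zz η) * (1 / t)) * vv η = B0 t := by
    have e : B0 t = 1 / t * Lap vv 0 t := by unfold B0; ring
    rw [e]
    unfold Lap
    rw [← integral_const_mul]
    refine integral_congr_ae (Eventually.of_forall fun η => ?_)
    simp only
    ring
  rwa [h2] at h

theorem B1_nonpos {t : ℝ} (ht : 0 < t) : B1 t ≤ 0 := by
  have hK : AntitoneOn (fun z : ℝ => Real.exp (-t * z) * (z / t + 1 / t ^ 2)) (Ici 0) := by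
    refine anti_of (K' := fun z => -(z * Real.exp (-t * z))) (fun z => ?_)
      (fun z hz => by have := mul_nonneg hz (Real.exp_pos (-t * z)).le; linarith)
    refine ((exp_der t z).fun_mul (((hasDerivAt_id' z).div_const t).add_const
      (1 / t ^ 2))).congr_deriv ?_
    field_simp
    ring
  have i0 := Lap_integrable vv_int 0 ht
  have i1 := Lap_integrable vv_int 1 ht
  have hi : IntegrableOn (fun η => (Real.exp (-t * zz η) * (zz η / t + 1 / t ^ 2)) * vv η)
      (Ioi 0) := by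
    refine ((i1.const_mul (1 / t)).add (i0.const_mul (1 / t ^ 2))).congr
      (Eventually.of_forall fun η => ?_)
    simp only [Pi.add_apply]
    ring
  have h := anti_pos hK hi
  have h2 : ∫ η in Ioi (0 : ℝ), (Real.exp (-t * zz η) * (zz η / t + 1 / t ^ 2)) * vv η = -B1 t := by
    have e : -B1 t = 1 / t * Lap vv 1 t + 1 / t ^ 2 * Lap vv 0 t := by unfold B1; ring
    rw [e]
    unfold Lap
    rw [← integral_const_mul, ← integral_const_mul,
      ← integral_add (i1.const_mul (1 / t)) (i0.const_mul (1 / t ^ 2))]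
    refine integral_congr_ae (Eventually.of_forall fun η => ?_)
    simp only
    ring
  rw [h2] at h
  linarith

theorem B2_nonneg {t : ℝ} (ht : 0 < t) : 0 ≤ B2 t := by
  have hK : AntitoneOn (fun z : ℝ => Real.exp (-t * z) *
      (z ^ 2 / t + 2 * z / t ^ 2 + 2 / t ^ 3)) (Ici 0) := by
    refine anti_of (K' := fun z => -(z ^ 2 * Real.exp (-t * z))) (fun z => ?_)
      (fun z hz => by have := mul_nonneg (sq_nonneg z) (Real.exp_pos (-t * z)).le; linarith)
    refine ((exp_der t z).fun_mul ((((hasDerivAt_pow 2 z).div_const t).fun_add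
      (((hasDerivAt_id' z).const_mul 2).div_const (t ^ 2))).add_const
      (2 / t ^ 3))).congr_deriv ?_
    field_simp
    push_cast
    ring
  have i0 := Lap_integrable vv_int 0 ht
  have i1 := Lap_integrable vv_int 1 ht
  have i2 := Lap_integrable vv_int 2 ht
  have hi : IntegrableOn (fun η => (Real.exp (-t * zz η) *
      (zz η ^ 2 / t + 2 * zz η / t ^ 2 + 2 / t ^ 3)) * vv η) (Ioi 0) := by
    refine (((i2.const_mul (1 / t)).add (i1.const_mul (2 / t ^ 2))).add
      (i0.const_mul (2 / t ^ 3))).congr (Eventually.of_forall fun η => ?_)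
    simp only [Pi.add_apply]
    ring
  have h := anti_pos hK hi
  have h2 : ∫ η in Ioi (0 : ℝ), (Real.exp (-t * zz η) *
      (zz η ^ 2 / t + 2 * zz η / t ^ 2 + 2 / t ^ 3)) * vv η = B2 t := by
    have e : B2 t = 1 / t * Lap vv 2 t + 2 / t ^ 2 * Lap vv 1 t + 2 / t ^ 3 * Lap vv 0 t := by
      unfold B2; ring
    rw [e]
    unfold Lap
    rw [← integral_const_mul, ← integral_const_mul, ← integral_const_mul,
      ← integral_add (i2.const_mul (1 / t)) (i1.const_mul (2 / t ^ 2)),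
      ← integral_add (show Integrable (fun a => 1 / t * (zz a ^ 2 * Real.exp (-t * zz a) * vv a) +
        2 / t ^ 2 * (zz a ^ 1 * Real.exp (-t * zz a) * vv a)) (volume.restrict (Ioi 0)) from
        ((i2.const_mul (1 / t)).add (i1.const_mul (2 / t ^ 2))))
        (i0.const_mul (2 / t ^ 3))]
    refine integral_congr_ae (Eventually.of_forall fun η => ?_)
    simp only
    ring
  rwa [h2] at h

theorem B3_nonpos {t : ℝ} (ht : 0 < t) : B3 t ≤ 0 := by
  have hK : AntitoneOn (fun z : ℝ => Real.exp (-t * z) *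
      (z ^ 3 / t + 3 * z ^ 2 / t ^ 2 + 6 * z / t ^ 3 + 6 / t ^ 4)) (Ici 0) := by
    refine anti_of (K' := fun z => -(z ^ 3 * Real.exp (-t * z))) (fun z => ?_)
      (fun z hz => by
        have := mul_nonneg (pow_nonneg hz 3) (Real.exp_pos (-t * z)).le; linarith)
    refine ((exp_der t z).fun_mul (((((hasDerivAt_pow 3 z).div_const t).fun_add
      (((hasDerivAt_pow 2 z).const_mul 3).div_const (t ^ 2))).fun_add
      (((hasDerivAt_id' z).const_mul 6).div_const (t ^ 3))).add_const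
      (6 / t ^ 4))).congr_deriv ?_
    field_simp
    push_cast
    ring
  have i0 := Lap_integrable vv_int 0 ht
  have i1 := Lap_integrable vv_int 1 ht
  have i2 := Lap_integrable vv_int 2 ht
  have i3 := Lap_integrable vv_int 3 ht
  have hi : IntegrableOn (fun η => (Real.exp (-t * zz η) *
      (zz η ^ 3 / t + 3 * zz η ^ 2 / t ^ 2 + 6 * zz η / t ^ 3 + 6 / t ^ 4)) * vv η) (Ioi 0) := by
    refine ((((i3.const_mul (1 / t)).add (i2.const_mul (3 / t ^ 2))).add
      (i1.const_mul (6 / t ^ 3))).add (i0.const_mul (6 / t ^ 4))).congr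
      (Eventually.of_forall fun η => ?_)
    simp only [Pi.add_apply]
    ring
  have h := anti_pos hK hi
  have h2 : ∫ η in Ioi (0 : ℝ), (Real.exp (-t * zz η) *
      (zz η ^ 3 / t + 3 * zz η ^ 2 / t ^ 2 + 6 * zz η / t ^ 3 + 6 / t ^ 4)) * vv η = -B3 t := by
    have e : -B3 t = 1 / t * Lap vv 3 t + 3 / t ^ 2 * Lap vv 2 t + 6 / t ^ 3 * Lap vv 1 t +
        6 / t ^ 4 * Lap vv 0 t := by
      unfold B3; ring
    rw [e]
    unfold Lap
    rw [← integral_const_mul, ← integral_const_mul, ← integral_const_mul, ← integral_const_mul,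
      ← integral_add (i3.const_mul (1 / t)) (i2.const_mul (3 / t ^ 2)),
      ← integral_add (show Integrable (fun a => 1 / t * (zz a ^ 3 * Real.exp (-t * zz a) * vv a) +
        3 / t ^ 2 * (zz a ^ 2 * Real.exp (-t * zz a) * vv a)) (volume.restrict (Ioi 0)) from
        ((i3.const_mul (1 / t)).add (i2.const_mul (3 / t ^ 2))))
        (i1.const_mul (6 / t ^ 3)),
      ← integral_add (show Integrable (fun a => 1 / t * (zz a ^ 3 * Real.exp (-t * zz a) * vv a) +
        3 / t ^ 2 * (zz a ^ 2 * Real.exp (-t * zz a) * vv a) +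
        6 / t ^ 3 * (zz a ^ 1 * Real.exp (-t * zz a) * vv a)) (volume.restrict (Ioi 0)) from
        (((i3.const_mul (1 / t)).add (i2.const_mul (3 / t ^ 2))).add
        (i1.const_mul (6 / t ^ 3)))) (i0.const_mul (6 / t ^ 4))]
    refine integral_congr_ae (Eventually.of_forall fun η => ?_)
    simp only
    ring
  rw [h2] at h
  linarith

/-! the factor F -/

noncomputable def al (t : ℝ) : ℝ := Lap ww 1 t / Lap ww 0 t
noncomputable def be (t : ℝ) : ℝ := Lap ww 2 t / Lap ww 0 t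
noncomputable def ga (t : ℝ) : ℝ := Lap ww 3 t / Lap ww 0 t

noncomputable def F0 (t : ℝ) : ℝ := Real.exp (-t / 2) / Real.sqrt (Lap ww 0 t)
noncomputable def F1 (t : ℝ) : ℝ := -(F0 t * ((1 - al t) / 2))
noncomputable def F2 (t : ℝ) : ℝ := F0 t * ((1 - 2 * al t + 3 * al t ^ 2 - 2 * be t) / 4)
noncomputable def F3 (t : ℝ) : ℝ := -(F0 t * ((1 - 3 * al t + 9 * al t ^ 2 - 6 * be t -
  15 * al t ^ 3 + 18 * al t * be t - 4 * ga t) / 8))

variable (hw : ∫ η in Ioi (0 : ℝ), ww η = 1)
include hw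

theorem q0_pos {t : ℝ} (ht : 0 < t) : 0 < Lap ww 0 t := (Real.exp_pos _).trans_le (q0_ge hw ht)

theorem al_deriv {t : ℝ} (ht : 0 < t) : HasDerivAt al (al t ^ 2 - be t) t := by
  have h0 := Lap_deriv ww_int 0 ht
  have h1 := Lap_deriv ww_int 1 ht
  have hq := (q0_pos hw ht).ne'
  refine (h1.fun_div h0 hq).congr_deriv ?_
  unfold al be
  simp only [zero_add, Nat.reduceAdd]
  field_simp
  ring

theorem be_deriv {t : ℝ} (ht : 0 < t) : HasDerivAt be (al t * be t - ga t) t := by
  have h0 := Lap_deriv ww_int 0 ht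
  have h1 := Lap_deriv ww_int 2 ht
  have hq := (q0_pos hw ht).ne'
  refine (h1.fun_div h0 hq).congr_deriv ?_
  unfold al be ga
  simp only [zero_add, Nat.reduceAdd]
  field_simp
  ring

theorem F0_deriv {t : ℝ} (ht : 0 < t) : HasDerivAt F0 (F1 t) t := by
  have h0 := Lap_deriv ww_int 0 ht
  have hq := q0_pos hw ht
  have hs := h0.sqrt hq.ne'
  have he : HasDerivAt (fun t : ℝ => Real.exp (-t / 2)) (Real.exp (-t / 2) * (-1 / 2)) t :=
    (((hasDerivAt_id' t).fun_neg).div_const 2).exp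
  have hsq : 0 < Real.sqrt (Lap ww 0 t) := Real.sqrt_pos.2 hq
  refine (he.fun_div hs hsq.ne').congr_deriv ?_
  unfold F1 F0 al
  have h2 : Lap ww 0 t = Real.sqrt (Lap ww 0 t) ^ 2 := (Real.sq_sqrt hq.le).symm
  set s := Real.sqrt (Lap ww 0 t) with hsdef
  rw [h2]
  simp only [zero_add]
  field_simp
  ring

theorem F1_deriv {t : ℝ} (ht : 0 < t) : HasDerivAt F1 (F2 t) t := by
  have h0 := F0_deriv hw ht
  have h1 := al_deriv hw ht
  refine ((h0.fun_mul ((h1.const_sub 1).div_const 2)).fun_neg).congr_deriv ?_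
  unfold F2 F1
  ring

theorem F2_deriv {t : ℝ} (ht : 0 < t) : HasDerivAt F2 (F3 t) t := by
  have h0 := F0_deriv hw ht
  have h1 := al_deriv hw ht
  have h2 := be_deriv hw ht
  refine (h0.fun_mul ((((h1.const_mul 2).const_sub 1).fun_add ((h1.fun_pow 2).const_mul 3)).fun_sub
    (h2.const_mul 2) |>.div_const 4)).congr_deriv ?_
  unfold F3 F1
  push_cast
  ring

theorem al_le {t : ℝ} (ht : 0 < t) : al t ≤ 1 / 4 := by
  unfold al
  rw [div_le_iff₀ (q0_pos hw ht)]
  exact q1_le ht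

theorem be_le {t : ℝ} (ht : 0 < t) : be t ≤ 1 / 10 := by
  unfold be
  rw [div_le_iff₀ (q0_pos hw ht)]
  exact q2_le ht

theorem ga_le {t : ℝ} (ht : 0 < t) : ga t ≤ 1 / 20 := by
  unfold ga
  rw [div_le_iff₀ (q0_pos hw ht)]
  exact q3_le ht

theorem F0_pos {t : ℝ} (ht : 0 < t) : 0 < F0 t :=
  div_pos (Real.exp_pos _) (Real.sqrt_pos.2 (q0_pos hw ht))

theorem F1_nonpos {t : ℝ} (ht : 0 < t) : F1 t ≤ 0 := by
  unfold F1
  have h1 := al_le hw ht
  have := mul_nonneg (F0_pos hw ht).le (by linarith : 0 ≤ (1 - al t) / 2)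
  linarith

theorem F2_nonneg {t : ℝ} (ht : 0 < t) : 0 ≤ F2 t := by
  unfold F2
  have h1 := al_le hw ht
  have h2 := be_le hw ht
  have h3 := sq_nonneg (al t)
  exact mul_nonneg (F0_pos hw ht).le (by linarith)

theorem F3_nonpos {t : ℝ} (ht : 0 < t) : F3 t ≤ 0 := by
  unfold F3
  have h1 := al_le hw ht
  have h2 := be_le hw ht
  have h3 := ga_le hw ht
  have h4 : 0 ≤ (1 - 3 * al t + 9 * al t ^ 2 - 6 * be t -
      15 * al t ^ 3 + 18 * al t * be t - 4 * ga t) / 8 := by
    set a := al t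
    set b := be t
    set c := ga t
    have h5 : 0 ≤ (1 - 3 * a) * ((1 - 6 * b) - 2 / 5) :=
      mul_nonneg (by linarith) (by linarith)
    have h6 : 0 ≤ a ^ 2 * (1 / 4 - a) := mul_nonneg (sq_nonneg a) (by linarith)
    nlinarith [sq_nonneg (a - 1 / 8)]
  have := mul_nonneg (F0_pos hw ht).le h4
  linarith

end Pool.Agent.Q289.TS
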