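import Pool.Agent.Q289.TS.Mono2
import Pool.Agent.Q289.TS.Inv

open MeasureTheory Set Filter Topology
open scoped RealInnerProductSpace

namespace Pool.Agent.Q289.TS

open Pool.Agent.H506R3.Mag (ct)

noncomputable def gg (t : ℝ) : ℝ := ∫ η in Ioi (0 : ℝ), Real.exp (-yy η * |t|) * ww η

noncomputable def psi (t : ℝ) : ℝ := Real.sqrt (gg t)

theorem gg_even (t : ℝ) : gg (-t) = gg t := by unfold gg; rw [abs_neg]
theorem psi_even (t : ℝ) : psi (-t) = psi t := by unfold psi; rw [gg_even]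

theorem gg_cont : Continuous gg := by
  unfold gg
  refine continuous_of_dominated (bound := fun η => |ww η|) ?_ ?_ ?_ ?_
  · intro t
    exact (Real.continuous_exp.comp (yy_cont.neg.mul continuous_const)).aestronglyMeasurable.mul
      ww_int.aestronglyMeasurable
  · intro t
    refine Eventually.of_forall fun η => ?_
    rw [norm_mul, Real.norm_eq_abs, Real.norm_eq_abs, abs_of_pos (Real.exp_pos _)]
    refine mul_le_of_le_one_left (abs_nonneg _) ?_
    rw [Real.exp_le_one_iff]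
    have h1 := yy_pos η
    have h2 := abs_nonneg t
    nlinarith
  · exact ww_int.abs
  · refine Eventually.of_forall fun η => ?_
    fun_prop

theorem psi_cont : Continuous psi := gg_cont.sqrt

theorem gg_pos_eq {t : ℝ} (ht : 0 < t) : gg t = Real.exp (-t) * Lap ww 0 t := by
  unfold gg Lap
  rw [← integral_const_mul]
  refine integral_congr_ae (Eventually.of_forall fun η => ?_)
  simp only [pow_zero, one_mul]
  rw [← mul_assoc, ← Real.exp_add, abs_of_pos ht]
  congr 2
  unfold zz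
  ring

theorem psi_pos_eq {t : ℝ} (ht : 0 < t) :
    psi t = Real.exp (-t / 2) * Real.sqrt (Lap ww 0 t) := by
  unfold psi
  rw [gg_pos_eq ht, Real.sqrt_mul (Real.exp_pos _).le]
  congr 1
  have h1 : Real.exp (-t) = Real.exp (-t / 2) * Real.exp (-t / 2) := by
    rw [← Real.exp_add]; congr 1; ring
  rw [h1, Real.sqrt_mul_self (Real.exp_pos _).le]

theorem r0_eq {t : ℝ} (ht : 0 < t) : Lap vv 0 t = Lap ww 0 t + Lap ww 1 t := by
  unfold Lap
  rw [← integral_add (Lap_integrable ww_int 0 ht) (Lap_integrable ww_int 1 ht)]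
  refine integral_congr_ae (Eventually.of_forall fun η => ?_)
  simp only [vv, ww, zz]
  have := (yy_pos η).ne'
  field_simp
  ring

noncomputable def E0 (t : ℝ) : ℝ := B0 t * F0 t / 2
noncomputable def E1 (t : ℝ) : ℝ := (B1 t * F0 t + B0 t * F1 t) / 2
noncomputable def E2 (t : ℝ) : ℝ := (B2 t * F0 t + 2 * (B1 t * F1 t) + B0 t * F2 t) / 2
noncomputable def E3 (t : ℝ) : ℝ :=
  (B3 t * F0 t + 3 * (B2 t * F1 t) + 3 * (B1 t * F2 t) + B0 t * F3 t) / 2

theorem psi_bound {t : ℝ} (ht : 0 < t) :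
    psi t ≤ Real.sqrt (∫ η in Ioi (0 : ℝ), |ww η|) * Real.exp (-(1 / 2) * t) := by
  rw [psi_pos_eq ht, mul_comm, show -t / 2 = -(1 / 2) * t by ring]
  refine mul_le_mul_of_nonneg_right (Real.sqrt_le_sqrt ?_) (Real.exp_pos _).le
  have := Lap_bound ww_int 0 ht
  simp only [Nat.factorial_zero, Nat.cast_one, pow_zero, div_one, one_mul] at this
  exact (le_abs_self _).trans this

theorem psi_nonneg (t : ℝ) : 0 ≤ psi t := Real.sqrt_nonneg _

theorem psi_lim : Tendsto psi atTop (𝓝 0) := by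
  have h1 : Tendsto (fun t : ℝ => Real.sqrt (∫ η in Ioi (0 : ℝ), |ww η|) *
      Real.exp (-(1 / 2) * t)) atTop (𝓝 (Real.sqrt (∫ η in Ioi (0 : ℝ), |ww η|) * 0)) := by
    refine Tendsto.const_mul _ ?_
    refine Real.tendsto_exp_atBot.comp ?_
    exact tendsto_id.const_mul_atTop_of_neg (by norm_num)
  rw [mul_zero] at h1
  refine squeeze_zero' (Eventually.of_forall fun t => psi_nonneg t) ?_ h1
  filter_upwards [eventually_gt_atTop (0 : ℝ)] with t ht
  exact psi_bound ht

theorem psi_int_Ioi : IntegrableOn psi (Ioi 0) := by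
  have h1 : IntegrableOn (fun t : ℝ => Real.sqrt (∫ η in Ioi (0 : ℝ), |ww η|) *
      Real.exp (-(1 / 2) * t)) (Ioi 0) :=
    (integrableOn_exp_mul_Ioi (by norm_num) 0).const_mul _
  refine Integrable.mono' h1 psi_cont.aestronglyMeasurable ?_
  refine (ae_restrict_mem measurableSet_Ioi).mono fun t ht => ?_
  rw [Real.norm_eq_abs, abs_of_nonneg (psi_nonneg t)]
  exact psi_bound ht

theorem psi_integrable : Integrable psi := by
  have h1 : IntegrableOn psi (Iic 0) := by
    have h2 : IntegrableOn psi (Ici 0) := by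
      rw [integrableOn_Ici_iff_integrableOn_Ioi]; exact psi_int_Ioi
    have h3 := h2.comp_neg
    rw [Set.neg_Ici, neg_zero] at h3
    refine h3.congr (Eventually.of_forall fun t => ?_)
    exact psi_even t
  rw [← integrableOn_univ, ← Iic_union_Ioi (a := (0 : ℝ))]
  exact h1.union psi_int_Ioi

variable (hw : ∫ η in Ioi (0 : ℝ), ww η = 1)
include hw

theorem psi_deriv {t : ℝ} (ht : 0 < t) : HasDerivAt psi (-(t * E0 t)) t := by
  have h0 := Lap_deriv ww_int 0 ht
  have hq := q0_pos hw ht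
  have hs := h0.sqrt hq.ne'
  have he : HasDerivAt (fun t : ℝ => Real.exp (-t / 2)) (Real.exp (-t / 2) * (-1 / 2)) t :=
    (((hasDerivAt_id' t).fun_neg).div_const 2).exp
  have hsq : 0 < Real.sqrt (Lap ww 0 t) := Real.sqrt_pos.2 hq
  have h1 := he.fun_mul hs
  have h2 : HasDerivAt psi (Real.exp (-t / 2) * (-1 / 2) * Real.sqrt (Lap ww 0 t) +
      Real.exp (-t / 2) * (-Lap ww (0 + 1) t / (2 * Real.sqrt (Lap ww 0 t)))) t := by
    refine h1.congr_of_eventuallyEq ?_
    filter_upwards [Ioi_mem_nhds ht] with s hs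
    exact psi_pos_eq hs
  refine h2.congr_deriv ?_
  unfold E0 B0 F0
  rw [r0_eq ht]
  have h3 : Lap ww 0 t = Real.sqrt (Lap ww 0 t) ^ 2 := (Real.sq_sqrt hq.le).symm
  set s := Real.sqrt (Lap ww 0 t) with hsdef
  rw [h3]
  simp only [zero_add]
  field_simp
  ring

theorem E0_deriv {t : ℝ} (ht : 0 < t) : HasDerivAt E0 (E1 t) t := by
  refine (((B0_deriv ht).fun_mul (F0_deriv hw ht)).div_const 2).congr_deriv ?_
  unfold E1; ring

theorem E1_deriv {t : ℝ} (ht : 0 < t) : HasDerivAt E1 (E2 t) t := by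
  refine ((((B1_deriv ht).fun_mul (F0_deriv hw ht)).fun_add
    ((B0_deriv ht).fun_mul (F1_deriv hw ht))).div_const 2).congr_deriv ?_
  unfold E2; ring

theorem E2_deriv {t : ℝ} (ht : 0 < t) : HasDerivAt E2 (E3 t) t := by
  refine (((((B2_deriv ht).fun_mul (F0_deriv hw ht)).fun_add
    (((B1_deriv ht).fun_mul (F1_deriv hw ht)).const_mul 2)).fun_add
      ((B0_deriv ht).fun_mul (F2_deriv hw ht))).div_const 2).congr_deriv ?_
  unfold E3; ring

theorem E0_nonneg {t : ℝ} (ht : 0 < t) : 0 ≤ E0 t := by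
  have h1 := mul_nonneg (B0_nonneg ht) (F0_pos hw ht).le
  unfold E0; linarith

theorem E1_nonpos {t : ℝ} (ht : 0 < t) : E1 t ≤ 0 := by
  have h1 := mul_nonpos_of_nonpos_of_nonneg (B1_nonpos ht) (F0_pos hw ht).le
  have h2 := mul_nonpos_of_nonneg_of_nonpos (B0_nonneg ht) (F1_nonpos hw ht)
  unfold E1; linarith

theorem E2_nonneg {t : ℝ} (ht : 0 < t) : 0 ≤ E2 t := by
  have h1 := mul_nonneg (B2_nonneg ht) (F0_pos hw ht).le
  have h2 := mul_nonneg_of_nonpos_of_nonpos (B1_nonpos ht) (F1_nonpos hw ht)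
  have h3 := mul_nonneg (B0_nonneg ht) (F2_nonneg hw ht)
  unfold E2; linarith

theorem E3_nonpos {t : ℝ} (ht : 0 < t) : E3 t ≤ 0 := by
  have h1 := mul_nonpos_of_nonpos_of_nonneg (B3_nonpos ht) (F0_pos hw ht).le
  have h2 := mul_nonpos_of_nonneg_of_nonpos (B2_nonneg ht) (F1_nonpos hw ht)
  have h3 := mul_nonpos_of_nonpos_of_nonneg (B1_nonpos ht) (F2_nonneg hw ht)
  have h4 := mul_nonpos_of_nonneg_of_nonpos (B0_nonneg ht) (F3_nonpos hw ht)
  unfold E3; linarith

theorem F0_bound {t : ℝ} (ht : 0 < t) : F0 t ≤ Real.exp (-(9 / 50) * t) := by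
  unfold F0
  have h1 : Real.exp (-t * z0 / 2) ≤ Real.sqrt (Lap ww 0 t) := by
    apply Real.le_sqrt_of_sq_le
    refine le_trans (le_of_eq ?_) (q0_ge hw ht)
    rw [← Real.exp_nat_mul]
    congr 1
    push_cast
    ring
  have h2 : 0 < Real.sqrt (Lap ww 0 t) := (Real.exp_pos _).trans_le h1
  rw [div_le_iff₀ h2]
  refine le_trans ?_ (mul_le_mul_of_nonneg_left h1 (Real.exp_pos _).le)
  rw [← Real.exp_add]
  apply Real.exp_le_exp.2
  have := z0_lt
  nlinarith

theorem tE0_bound {t : ℝ} (ht : 0 < t) :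
    t * E0 t ≤ (∫ η in Ioi (0 : ℝ), |vv η|) / 2 * Real.exp (-(9 / 50) * t) := by
  have h1 : t * E0 t = Lap vv 0 t * F0 t / 2 := by
    unfold E0 B0
    field_simp
  rw [h1]
  have h2 := Lap_bound vv_int 0 ht
  simp only [Nat.factorial_zero, Nat.cast_one, pow_zero, div_one, one_mul] at h2
  have h3 : Lap vv 0 t ≤ ∫ η in Ioi (0 : ℝ), |vv η| := (le_abs_self _).trans h2
  have h4 : 0 ≤ ∫ η in Ioi (0 : ℝ), |vv η| := integral_nonneg fun η => abs_nonneg _
  have h5 := mul_le_mul h3 (F0_bound hw ht) (F0_pos hw ht).le h4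
  linarith

theorem cos_psi {x : ℝ} (hx : 0 < x) : 0 ≤ ∫ t in Ioi (0 : ℝ), Real.cos (x * t) * psi t := by
  have hM : 0 ≤ (∫ η in Ioi (0 : ℝ), |vv η|) / 2 := by
    have : 0 ≤ ∫ η in Ioi (0 : ℝ), |vv η| := integral_nonneg fun η => abs_nonneg _
    linarith
  refine cos_pos (C := (∫ η in Ioi (0 : ℝ), |vv η|) / 2) psi_cont.continuousOn
    (fun t ht => psi_deriv hw ht) (fun t ht => E0_deriv hw ht) (fun t ht => E1_deriv hw ht)
    (fun t ht => E2_deriv hw ht) (fun t ht => E0_nonneg hw ht) (fun t ht => E1_nonpos hw ht)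
    (fun t ht => E2_nonneg hw ht) (fun t ht => E3_nonpos hw ht) ?_ ?_ psi_lim psi_int_Ioi hx
  · intro t ht
    refine (tE0_bound hw ht).trans ?_
    refine mul_le_of_le_one_right hM ?_
    rw [Real.exp_le_one_iff]
    linarith
  · have h1 : Tendsto (fun t : ℝ => (∫ η in Ioi (0 : ℝ), |vv η|) / 2 *
        Real.exp (-(9 / 50) * t)) atTop (𝓝 ((∫ η in Ioi (0 : ℝ), |vv η|) / 2 * 0)) := by
      refine Tendsto.const_mul _ ?_
      refine Real.tendsto_exp_atBot.comp ?_
      exact tendsto_id.const_mul_atTop_of_neg (by norm_num)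
    rw [mul_zero] at h1
    refine squeeze_zero' ?_ ?_ h1
    · filter_upwards [eventually_gt_atTop (0 : ℝ)] with t ht
      exact mul_nonneg ht.le (E0_nonneg hw ht)
    · filter_upwards [eventually_gt_atTop (0 : ℝ)] with t ht
      exact tE0_bound hw ht

theorem ct_psi (ξ : ℝ) : 0 ≤ ct psi ξ := by
  have h1 : ct psi ξ = ∫ t : ℝ, (fun s => Real.cos (2 * Real.pi * |ξ| * s) * psi s) |t| := by
    unfold ct
    refine integral_congr_ae (Eventually.of_forall fun t => ?_)
    simp only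
    have e1 : psi |t| = psi t := by
      rcases abs_choice t with h | h
      · rw [h]
      · rw [h, psi_even]
    rw [e1, mul_comm]
    congr 1
    have e2 : (⟪t, ξ⟫ : ℝ) = ξ * t := by simp
    rw [e2, ← Real.cos_abs (2 * Real.pi * (ξ * t))]
    congr 1
    rw [abs_mul (2 * Real.pi) (ξ * t), abs_mul ξ t, abs_of_pos (by positivity : 0 < 2 * Real.pi)]
    ring
  rw [h1, integral_comp_abs (f := fun s => Real.cos (2 * Real.pi * |ξ| * s) * psi s)]
  refine mul_nonneg (by norm_num) ?_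
  rcases eq_or_ne ξ 0 with h | h
  · subst h
    refine setIntegral_nonneg measurableSet_Ioi fun t _ => ?_
    simp [psi_nonneg]
  · exact cos_psi hw (by positivity)

end Pool.Agent.Q289.TS
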